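import Pool.Agent.MP_187b32_an.Lin.Cone
import Pool.Agent.MP_187b32_an.Herm.Macro

/-! The hydrodynamic system: solutions, scaling, finite speed of propagation. -/

set_option autoImplicit false

open Filter Topology MeasureTheory Set Pool.Agent.Boltz
open scoped ContDiff

noncomputable section

namespace Pool.Agent.MP_187b32_an.Lin

theorem hasDerivAt_line_fderiv {φ : E3 → ℝ} (h : Differentiable ℝ φ) (i : Fin 3) (x : E3) :
    HasDerivAt (fun t : ℝ => φ (x + t • ev i)) (fderiv ℝ φ x (ev i)) 0 :=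
  (h x).hasFDerivAt.hasLineDerivAt (ev i)

theorem sm_of_contDiff {φ : E3 → ℝ} (h : ContDiff ℝ ∞ φ) : Sm φ := by
  refine smC_coind (fun k : Unit → E3 → ℝ => ∃ ψ : E3 → ℝ, ContDiff ℝ ∞ ψ ∧ k = fun _ => ψ) ?_
    ⟨φ, h, rfl⟩
  rintro k ⟨ψ, hψ, rfl⟩
  refine ⟨hψ.continuous.comp continuous_snd, fun i => ⟨fun _ x => fderiv ℝ ψ x (ev i),
    ⟨_, (hψ.fderiv_right (m := ∞) le_rfl).clm_apply contDiff_const, rfl⟩, fun _ x => ?_⟩⟩
  exact (hasDerivAt_line_fderiv (hψ.differentiable (by simp)) i x).hd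

theorem exists_cut {a b : ℝ} (ha : 0 < a) (hab : a < b) :
    ∃ χ : E3 → ℝ, Sm χ ∧ (∀ x, ‖x‖ ≤ a → χ x = 1) ∧ Supp b χ ∧ ∀ x, 0 ≤ χ x ∧ χ x ≤ 1 := by
  let f : ContDiffBump (0 : E3) := ⟨a, b, ha, hab⟩
  refine ⟨f, sm_of_contDiff f.contDiff, fun x hx => f.one_of_mem_closedBall (by simpa using hx),
    fun x hx => f.zero_of_le_dist (by simpa using hx.le), fun x => ⟨f.nonneg, f.le_one⟩⟩

/-- The field in the variables `(s, x)` attached to an autonomous field in `y = e^s x`. -/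
def sc (F : Fld) (s : ℝ) : Fld where
  u i x := Real.exp (-s) * F.u i (Real.exp s • x)
  c x := Real.exp (-s) * F.c (Real.exp s • x)
  b0 j x := F.b0 j (Real.exp s • x)
  b1 i j x := F.b1 i j (Real.exp s • x)
  b2 i x := F.b2 i (Real.exp s • x)

theorem sc_tr_scale (F : Fld) (s θ : ℝ) {G : E3 → SV} (hG : Dif G) (x : E3) :
    (sc F (s + θ)).tr (fun y => G (Real.exp θ • y)) x = (sc F s).tr G (Real.exp θ • x) := by
  have e1 : Real.exp (s + θ) • x = Real.exp s • Real.exp θ • x := by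
    rw [smul_smul, Real.exp_add]
  have e2 : ∀ a : ℝ, Real.exp (-(s + θ)) * a * Real.exp θ = Real.exp (-s) * a := fun a => by
    rw [mul_right_comm, ← Real.exp_add]; congr 2; ring
  simp only [Fld.tr, Fld.vel, sc, dX_scale hG, e1, map_smul, smul_smul, e2]

/-- Two fields have the same coefficients at `x`. -/
structure Agree (F F' : Fld) (x x' : E3) : Prop where
  u : ∀ i, F.u i x = F'.u i x'
  c : F.c x = F'.c x'
  b0 : ∀ j, F.b0 j x = F'.b0 j x'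
  b1 : ∀ i j, F.b1 i j x = F'.b1 i j x'
  b2 : ∀ i, F.b2 i x = F'.b2 i x'

theorem Agree.tr {F F' : Fld} {x x' : E3} (h : Agree F F' x x') {G G' : E3 → SV}
    (h0 : G x = G' x') (h1 : ∀ i, dX i G x = dX i G' x') : F.tr G x = F'.tr G' x' := by
  simp only [Fld.tr, Fld.vel, h.u, h.c, h.b0, h.b1, h.b2, h0, h1]

theorem Agree.rfl' (F : Fld) (x : E3) : Agree F F x x :=
  ⟨fun _ => rfl, rfl, fun _ => rfl, fun _ _ => rfl, fun _ => rfl⟩

theorem Agree.trans {F F' F'' : Fld} {x x' x'' : E3} (h : Agree F F' x x')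
    (h' : Agree F' F'' x' x'') : Agree F F'' x x'' :=
  ⟨fun i => (h.u i).trans (h'.u i), h.c.trans h'.c, fun j => (h.b0 j).trans (h'.b0 j),
    fun i j => (h.b1 i j).trans (h'.b1 i j), fun i => (h.b2 i).trans (h'.b2 i)⟩

theorem agree_red {F : Fld} (h : F.Reg) (x : E3) : Agree F F x (red x) :=
  ⟨fun i => ((h.u i).2.red x).symm, (h.c.2.red x).symm, fun j => ((h.b0 j).2.red x).symm,
    fun i j => ((h.b1 i j).2.red x).symm, fun i => ((h.b2 i).2.red x).symm⟩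

theorem tr_congr_ev (F : Fld) {G H : E3 → SV} {x : E3} (h : G =ᶠ[𝓝 x] H) : F.tr G x = F.tr H x :=
  (Agree.rfl' F x).tr h.eq_of_nhds fun i => dX_congr_ev h i

theorem tr_zero_ev (F : Fld) {G : E3 → SV} {x : E3} (h : G =ᶠ[𝓝 x] fun _ => 0) :
    F.tr G x = 0 := by
  rw [tr_congr_ev F h]
  simp [Fld.tr, Fld.vel, dX_const]

theorem tr_add (F : Fld) {G H : E3 → SV} (hG : Dif G) (hH : Dif H) (x : E3) :
    F.tr (fun y => G y + H y) x = F.tr G x + F.tr H x := by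
  simp only [Fld.tr, Fld.vel, dX_add hG hH, map_add, smul_add, Finset.sum_add_distrib]
  abel

theorem tr_smul (F : Fld) {G : E3 → SV} (hG : Dif G) (a : ℝ) (x : E3) :
    F.tr (fun y => a • G y) x = a • F.tr G x := by
  simp only [Fld.tr, Fld.vel, dX_const_smul hG, map_smul, smul_add, smul_neg, Finset.smul_sum,
    smul_comm a]

/-- Solutions of the hydrodynamic system for `s ≥ s0`. -/
structure Sol (F : ℝ → Fld) (s0 : ℝ) (W W' G : ℝ → E3 → SV) : Prop where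
  sm : SmD W W'
  hyd : ∀ s x, PP (W s x) = W s x
  eqn : ∀ s, s0 ≤ s → ∀ x, W' s x + PP ((F s).tr (W s) x) = G s x

theorem Sol.add {F : ℝ → Fld} {s0 : ℝ} {W W' G V V' H : ℝ → E3 → SV} (h : Sol F s0 W W' G)
    (k : Sol F s0 V V' H) : Sol F s0 (fun s x => W s x + V s x) (fun s x => W' s x + V' s x)
      fun s x => G s x + H s x :=
  ⟨h.sm.add k.sm, fun s x => by rw [map_add, h.hyd, k.hyd], fun s hs x => by
    rw [tr_add _ (h.sm.sm.dif s) (k.sm.sm.dif s), map_add, ← h.eqn s hs, ← k.eqn s hs]; abel⟩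

theorem Sol.smul {F : ℝ → Fld} {s0 : ℝ} {W W' G : ℝ → E3 → SV} (h : Sol F s0 W W' G) (a : ℝ) :
    Sol F s0 (fun s x => a • W s x) (fun s x => a • W' s x) fun s x => a • G s x :=
  ⟨h.sm.const_smul a, fun s x => by rw [map_smul, h.hyd], fun s hs x => by
    rw [tr_smul _ (h.sm.sm.dif s), map_smul, ← h.eqn s hs, smul_add]⟩

theorem Sol.congr {F : ℝ → Fld} {s0 s1 : ℝ} {W W' G H : ℝ → E3 → SV} (h : Sol F s0 W W' G)
    (h01 : s0 ≤ s1) (e : ∀ s, s1 ≤ s → ∀ x, G s x = H s x) : Sol F s1 W W' H :=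
  ⟨h.sm, h.hyd, fun s hs x => (h.eqn s (h01.trans hs) x).trans (e s hs x)⟩

theorem Sol.scale {F : Fld} {s0 : ℝ} {W W' G : ℝ → E3 → SV} (h : Sol (sc F) s0 W W' G) (θ : ℝ) :
    Sol (sc F) (s0 - θ) (fun s x => W (s + θ) (Real.exp (-θ) • x))
      (fun s x => W' (s + θ) (Real.exp (-θ) • x)) fun s x => G (s + θ) (Real.exp (-θ) • x) := by
  refine ⟨h.sm.shift_scale θ _, fun s x => h.hyd _ _, fun s hs x => ?_⟩
  have := sc_tr_scale F (s + θ) (-θ) (h.sm.sm.dif (s + θ)) x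
  rw [add_neg_cancel_right] at this
  rw [this]
  exact h.eqn (s + θ) (by linarith) _

/-- Regularity and size of the coefficients needed for finite speed of propagation. -/
structure Tame (F : ℝ → Fld) (K s1 : ℝ) : Prop where
  smu : ∀ i, SmC fun s => (F s).u i
  smc : SmC fun s => (F s).c
  bu : ∀ s, s1 ≤ s → ∀ i x, |(F s).u i x| ≤ K * Real.exp (-s)
  bc : ∀ s, s1 ≤ s → ∀ x, |(F s).c x| ≤ K * Real.exp (-s)
  b0 : ∀ s, s1 ≤ s → ∀ j x, |(F s).b0 j x| ≤ K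
  b1 : ∀ s, s1 ≤ s → ∀ i j x, |(F s).b1 i j x| ≤ K
  b2 : ∀ s, s1 ≤ s → ∀ i x, |(F s).b2 i x| ≤ K

theorem exists_hyd_bound (A : SV →L[ℝ] SV) :
    ∃ C : ℝ, 0 ≤ C ∧ ∀ f, PP f = f → |ip (A f) f| ≤ C * ip f f := by
  obtain ⟨C, hC, h⟩ := nA_clm_PP_le A 0
  refine ⟨√C, Real.sqrt_nonneg _, fun f hf => ?_⟩
  have h1 := h f
  rw [hf, nA_zero] at h1
  have h2 := Real.sqrt_le_sqrt h1
  rw [Real.sqrt_mul hC] at h2
  calc |ip (A f) f| ≤ √(ip (A f) (A f)) * √(ip f f) := abs_ip_le _ _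
    _ ≤ √C * √(ip f f) * √(ip f f) := by gcongr
    _ = _ := by rw [mul_assoc, Real.mul_self_sqrt (ip_self_nonneg f)]

theorem exists_vel_bound : ∃ C : ℝ, 0 ≤ C ∧ ∀ (F : Fld) (x : E3) (K : ℝ) (f : SV), PP f = f →
    (∀ j, |F.b0 j x| ≤ K) → (∀ i j, |F.b1 i j x| ≤ K) → (∀ i, |F.b2 i x| ≤ K) →
    -ip (F.vel x f) f ≤ C * K * ip f f := by
  choose C0 h0 H0 using fun j => exists_hyd_bound (ap j)
  choose C1 h1 H1 using fun i j => exists_hyd_bound ((mulV i).comp (ap j))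
  choose C2 h2 H2 using fun i j => exists_hyd_bound ((mulV i).comp ((mulV j).comp (ap j)))
  refine ⟨∑ j, C0 j + ∑ i, ∑ j, C1 i j + ∑ i, ∑ j, C2 i j,
    add_nonneg (add_nonneg (Finset.sum_nonneg fun j _ => h0 j)
      (Finset.sum_nonneg fun i _ => Finset.sum_nonneg fun j _ => h1 i j))
      (Finset.sum_nonneg fun i _ => Finset.sum_nonneg fun j _ => h2 i j),
    fun F x K f hf k0 k1 k2 => ?_⟩
  have key : ∀ b t C : ℝ, |b| ≤ K → |t| ≤ C * ip f f → b * t ≤ C * K * ip f f := by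
    intro b t C hb ht
    calc b * t ≤ |b| * |t| := by rw [← abs_mul]; exact le_abs_self _
      _ ≤ K * (C * ip f f) := mul_le_mul hb ht (abs_nonneg _) ((abs_nonneg _).trans hb)
      _ = _ := by ring
  simp only [Fld.vel, map_neg, LinearMap.neg_apply, neg_neg, map_add, LinearMap.add_apply,
    map_sum, LinearMap.sum_apply, map_smul, LinearMap.smul_apply, smul_eq_mul, add_mul,
    Finset.sum_mul]
  refine add_le_add (add_le_add (Finset.sum_le_sum fun j _ => key _ _ _ (k0 j) (H0 j f hf))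
    (Finset.sum_le_sum fun i _ => Finset.sum_le_sum fun j _ => key _ _ _ (k1 i j) (H1 i j f hf)))
    (Finset.sum_le_sum fun i _ => Finset.sum_le_sum fun j _ => key _ _ _ (k2 i) (H2 i j f hf))

theorem hyd_dX {W : E3 → SV} (hW : Dif W) (h : ∀ x, PP (W x) = W x) (i : Fin 3) (x : E3) :
    PP (dX i W x) = dX i W x := by
  have := congrFun (dX_clm hW PP i) x
  simp only [h] at this
  exact this.symm

/-- Local energy estimate on a backward cone. -/
theorem cone_sol (K : ℝ) (hK : 0 ≤ K) : ∃ Λ : ℝ, 0 ≤ Λ ∧ ∀ (F : ℝ → Fld) (s0 s2 : ℝ) (p : E3)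
    (r1 : ℝ), Tame F K s0 → 0 ≤ r1 → ∃ Kc : ℝ, ∀ W W' G : ℝ → E3 → SV, Sol F s0 W W' G →
      (∀ s ∈ Icc s0 s2, ∀ x, ‖x - p‖ ≤ r1 + Λ * Real.exp (-s) → G s x = 0) →
      ∀ s ∈ Icc s0 s2,
        ∫ x, expNegInvGlue ((r1 + Λ * Real.exp (-s)) ^ 2 - ‖x - p‖ ^ 2) * ip (W s x) (W s x) ≤
          (∫ x, expNegInvGlue ((r1 + Λ * Real.exp (-s0)) ^ 2 - ‖x - p‖ ^ 2)
            * ip (W s0 x) (W s0 x)) * Real.exp (Kc * (s - s0)) := by
  choose C0 h0 H0 using fun i => exists_hyd_bound (mulV i)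
  obtain ⟨Cv, hCv, Hv⟩ := exists_vel_bound
  set κ := ∑ i, C0 i with hκ
  have hκ0 : 0 ≤ κ := Finset.sum_nonneg fun i _ => h0 i
  refine ⟨3 * (K + κ * K), by positivity, fun F s0 s2 p r1 hF hr1 => ?_⟩
  let M : Fin 3 → SV →L[ℝ] SV := fun i => PP.comp ((mulV i).comp PP)
  have hM : ∀ i a b, ip (M i a) b = ip a (M i b) := fun i a b => by
    simp only [M, ContinuousLinearMap.comp_apply]
    rw [ip_PP, ip_mulV, ip_PP]
  have hMκ : ∀ i a, |ip (M i a) a| ≤ κ * ip a a := fun i a => by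
    simp only [M, ContinuousLinearMap.comp_apply]
    rw [ip_PP]
    refine (H0 i _ (PP_PP a)).trans ?_
    exact mul_le_mul (Finset.single_le_sum (fun i _ => h0 i) (Finset.mem_univ i)) (ip_PP_PP_le a)
      (ip_self_nonneg _) hκ0
  obtain ⟨Kc, hKc⟩ := cone_est ip continuous_ip ip_comm ip_self_nonneg M hM κ hMκ hF.smu hF.smc p
    (s0 := s0) (s1 := s2) (r := fun s => r1 + 3 * (K + κ * K) * Real.exp (-s))
    (r' := fun s => -(3 * (K + κ * K) * Real.exp (-s)))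
    (fun s => by
      have := ((hasDerivAt_neg s).exp.const_mul (3 * (K + κ * K))).const_add r1
      simpa using this)
    (by fun_prop) (fun s _ => by positivity)
    (fun s hs x _ i => by
      have h1 := hF.bu s hs.1 i x
      have h2 := mul_le_mul_of_nonneg_left (hF.bc s hs.1 x) hκ0
      linarith) (Cv * K)
  refine ⟨Kc, fun W W' G hW hG => hKc W W' hW.sm fun s hs x hx => ?_⟩
  have h1 := hW.eqn s hs.1 x
  rw [hG s hs x hx] at h1
  have h2 : W' s x + ∑ i, ((F s).u i x • dX i (W s) x + (F s).c x • M i (dX i (W s) x))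
      = -PP ((F s).vel x (W s x)) := by
    rw [eq_neg_iff_add_eq_zero, ← h1, add_assoc]
    simp only [Fld.tr, map_add, map_sum, map_smul, M, ContinuousLinearMap.comp_apply,
      hyd_dX (hW.sm.sm.dif s) (hW.hyd s)]
  rw [h2, map_neg, LinearMap.neg_apply, ip_PP, hW.hyd]
  exact Hv _ _ _ _ (hW.hyd s x) (fun j => hF.b0 s hs.1 j x) (fun i j => hF.b1 s hs.1 i j x)
    fun i => hF.b2 s hs.1 i x

/-- Finite speed of propagation. -/
theorem cone_zero (K : ℝ) (hK : 0 ≤ K) : ∃ Λ : ℝ, 0 ≤ Λ ∧ ∀ (F : ℝ → Fld) (s0 : ℝ) (p : E3)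
    (r1 : ℝ), Tame F K s0 → 0 < r1 → ∀ W W' G : ℝ → E3 → SV, Sol F s0 W W' G →
      (∀ s, s0 ≤ s → ∀ x, ‖x - p‖ ≤ r1 + Λ * Real.exp (-s0) → G s x = 0) →
      (∀ x, ‖x - p‖ ≤ r1 + Λ * Real.exp (-s0) → W s0 x = 0) → ∀ s, s0 ≤ s → W s p = 0 := by
  obtain ⟨Λ, hΛ, h⟩ := cone_sol K hK
  refine ⟨Λ, hΛ, fun F s0 p r1 hF hr1 W W' G hW hG h0 s hs => ?_⟩
  obtain ⟨Kc, hKc⟩ := h F s0 s p r1 hF hr1.le
  have h1 := hKc W W' G hW (fun t ht x hx => hG t ht.1 x (hx.trans (by gcongr; exact ht.1))) s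
    ⟨hs, le_rfl⟩
  have h2 : ∫ x, expNegInvGlue ((r1 + Λ * Real.exp (-s0)) ^ 2 - ‖x - p‖ ^ 2)
      * ip (W s0 x) (W s0 x) = 0 := by
    refine integral_eq_zero_of_ae (Eventually.of_forall fun x => ?_)
    by_cases hx : ‖x - p‖ ≤ r1 + Λ * Real.exp (-s0)
    · simp [h0 x hx]
    · have h3 : 0 ≤ r1 + Λ * Real.exp (-s0) := by positivity
      have h4 : (r1 + Λ * Real.exp (-s0)) ^ 2 - ‖x - p‖ ^ 2 ≤ 0 := by nlinarith [not_le.mp hx]
      simp [expNegInvGlue.zero_of_nonpos h4]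
  rw [h2, zero_mul] at h1
  exact ip_self_eq_zero (eq_zero_of_eta (q := fun x => ip (W s x) (W s x)) (by positivity)
    ((SmC.bilin ip continuous_ip hW.sm.sm hW.sm.sm).cont_slice s) (fun x => ip_self_nonneg _) h1)

end Pool.Agent.MP_187b32_an.Lin
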