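import Pool.Agent.MP_187b32_an.Lin.Flow

/-! Energy inequalities for the solutions on the whole space. -/

set_option autoImplicit false

open Filter Topology MeasureTheory Set Pool.Agent.Boltz

noncomputable section

namespace Pool.Agent.MP_187b32_an.Lin

theorem norm_le_norm_red {x : E3} (h : box (1 / 2) x) : ‖x‖ ≤ ‖red x‖ := by
  rw [EuclideanSpace.norm_eq, EuclideanSpace.norm_eq]
  refine Real.sqrt_le_sqrt (Finset.sum_le_sum fun i _ => ?_)
  refine pow_le_pow_left₀ (norm_nonneg _) ?_ 2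
  rw [Real.norm_eq_abs, Real.norm_eq_abs, red_apply]
  rcases eq_or_ne (round (x i)) 0 with h0 | h0
  · simp [h0]
  · have h1 : (1 : ℝ) ≤ |((round (x i) : ℤ) : ℝ)| := by exact_mod_cast Int.one_le_abs h0
    have h2 := abs_sub_abs_le_abs_sub ((round (x i) : ℤ) : ℝ) (x i)
    rw [abs_sub_comm] at h2
    linarith [h i]

/-- The deficit term of the energy inequality. -/
def DY (r a : ℝ) (φ : E3 → SV) : ℝ := ∫ y, jb y ^ (-r) * wy a y * ip (φ y) (φ y)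

theorem continuous_jb_rpow (b : ℝ) : Continuous fun y => jb y ^ b :=
  continuous_jb.rpow_const fun y => Or.inl (jb_pos y).ne'

theorem tint_deficit (B : BgD) (a : ℝ) {φ : E3 → SV} {R s : ℝ} (hφ : Sm φ) (hR : Supp R φ)
    (hs : Real.exp (-s) * R < 1 / 4) :
    tint (fun x => B.mu s x * B.om a s x * ip (per (fun x => φ (Real.exp s • x)) x)
      (per (fun x => φ (Real.exp s • x)) x)) = DY B.r a φ := by
  refine tint_eq_integral (s := s) (ρ := R) (fun i x => ?_)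
    (((continuous_jb_rpow _).mul (continuous_wy a)).mul (hφ.ip hφ).cont)
    (fun x hx => by simp only [hR x hx, map_zero, mul_zero]) hs (fun x hx => ?_) fun x hx h4 => ?_
  · simp only [per_mu B s i x, per_om B a s i x, per_per _ i x]
  · rw [mu_eq B s hx, om_eq B a s hx, per_eq _ (hx.trans_lt (by norm_num))]
    ring
  · have : per (fun x => φ (Real.exp s • x)) x = 0 :=
      supp_scale_exp hR hs.le _ (h4.trans_le (norm_le_norm_red hx))
    rw [this, map_zero, mul_zero]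

variable {B : BgD} {F : Fld} {K s1 : ℝ}

theorem comb_mem {m : ℕ} {φ : Fin m → E3 → SV} (hφ : ∀ i, φ i ∈ DD) (c : Fin m → ℝ) :
    ∑ i, c i • φ i ∈ DD := DD.sum_mem fun i _ => DD.smul_mem _ (hφ i)

theorem energy_WS (h4 : M4hStmt) (h : Ctx B F K s1) : ∃ n0 : ℕ, ∀ n, n0 ≤ n → ∀ θ : ℝ, 0 < θ →
    θ ≤ 1 → ∃ C : ℝ, 0 < C ∧ ∀ a, 0 ≤ a → a ≤ 1 / 4 → ∀ (m : ℕ) (φ : Fin m → E3 → SV),
      (∀ i, φ i ∈ DD) → ∀ (c : ℝ → Fin m → ℝ) (V V' : ℝ → E3 → SV), WS F V V' (frc φ c) →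
      ∃ e e' : ℝ → ℝ, (∀ t, HasDerivAt e (e' t) t) ∧ ∀ t, 0 ≤ t →
        e t = BY n θ a B.nu (out V t) (out V t) ∧
        e' t + 2 * a * e t ≤ C * DY B.r a (out V t)
          + 2 * BY n θ a B.nu (∑ i, c t i • φ i) (out V t) := by
  obtain ⟨K2, lam, s2, hlam, -, hyp⟩ := h.ok.hyp
  obtain ⟨n0, hn0⟩ := h4 K2 lam hlam
  refine ⟨n0, fun n hn θ hθ hθ1 => ?_⟩
  obtain ⟨C, hC, hE⟩ := hn0 n hn θ hθ hθ1
  refine ⟨C, hC, fun a ha ha4 m φ hφ c V V' hV => ?_⟩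
  obtain ⟨ρ, hρ0, hρ⟩ := hV.supp
  obtain ⟨R, -, hR⟩ := exists_supp_family hφ
  obtain ⟨τ, hτ, hsm⟩ := exists_time (max ρ R) (1 / 8) s2 (by norm_num)
  have h8 := hsm τ le_rfl
  have hS := hV.sol.scale (-τ)
  simp only [neg_neg, sub_neg_eq_add, zero_add] at hS
  have hT := hS.per h h8 fun s => supp_scale_exp ((hρ _).mono (le_max_left _ _)) le_rfl
  obtain ⟨E', -, hd, hb⟩ := hE (B.om a) _ B.sig _ _ _ (h.ok.sm_om a) h.ok.sm_sig hT.sm
    fun s => per_per _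
  refine ⟨_, fun t => E' (t + τ), fun t => (hd (t + τ)).comp_add_const t τ, fun t ht => ?_⟩
  set s := t + τ with hs
  have hs2 : s2 ≤ s := by linarith
  have hmem := hV.out_mem t
  have hsup : Supp (Real.exp t * max ρ R) (out V t) :=
    supp_scale_neg ((hρ t).mono (le_max_left _ _)) t
  have hρR : 0 ≤ max ρ R := hρ0.trans (le_max_left _ _)
  have hsup' : Supp (Real.exp t * max ρ R) (∑ i, c t i • φ i) := fun x hx => by
    rw [Finset.sum_apply]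
    refine Finset.sum_eq_zero fun i _ => ?_
    rw [Pi.smul_apply, hR i x (lt_of_le_of_lt ((le_max_right ρ R).trans
      (le_mul_of_one_le_left hρR (Real.one_le_exp ht))) hx), smul_zero]
  have hsmall : Real.exp (-s) * (Real.exp t * max ρ R) < 1 / 4 := by
    rw [← mul_assoc, ← Real.exp_add, show -s + t = -τ by rw [hs]; ring]
    exact h8.trans (by norm_num)
  have e1 : (fun x => V (s + -τ) (Real.exp τ • x)) = fun x => out V t (Real.exp s • x) := by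
    funext x
    simp only [out, smul_smul, ← Real.exp_add]
    congr 3 <;> rw [hs] <;> ring
  have e2 : (fun x => per (fun x => V' (s + -τ) (Real.exp τ • x)) x +
      PP ((B.fld s).tr (per fun x => V (s + -τ) (Real.exp τ • x)) x)) =
      per fun x => (∑ i, c t i • φ i) (Real.exp s • x) := by
    funext x
    rw [hT.eqn s (by linarith) x]
    simp only [per, frc, smul_smul, ← Real.exp_add, Finset.sum_apply, Pi.smul_apply]
    rw [show s + -τ = t by rw [hs]; ring]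
  have hb' := hb s (B.fld s) (B.mu s) _ (h.ok.fldC.reg s) (hyp s hs2).1 ((hyp s hs2).2.2 a ha ha4)
    (continuous_const.mul ((h.ok.sm_om a).sm.cont_slice s)) (hT.hyd s)
  rw [e2] at hb'
  simp only [e1] at hb' ⊢
  have e3 := E_per_per' (n := n) (θ := θ) B a hmem.1 hsup hmem.1 hsup hsmall
  have e4 := E_per_per' (n := n) (θ := θ) B a (comb_mem hφ (c t)).1 hsup' hmem.1 hsup hsmall
  unfold BgD.E at e3 e4
  rw [e4, tint_deficit B a hmem.1 hsup hsmall] at hb'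
  refine ⟨e3, ?_⟩
  simp only [mul_assoc] at hb' ⊢
  rw [tint_const_mul, tint_const_mul] at hb'
  exact hb'

variable {n : ℕ} {θ : ℝ}

theorem integrable_DY {r a : ℝ} {φ : E3 → SV} (hφ : φ ∈ DD) :
    Integrable fun y => jb y ^ (-r) * wy a y * ip (φ y) (φ y) := by
  obtain ⟨R, -, hR⟩ := hφ.2.1
  exact Supp.integrable (ρ := R) (fun x hx => by simp only [hR x hx, map_zero, mul_zero])
    (((continuous_jb_rpow _).mul (continuous_wy a)).mul (hφ.1.ip hφ.1).cont)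

theorem integrable_eta {w : E3 → ℝ} (hw : Continuous w) {φ : E3 → SV} (hφ : Sm φ) {R : ℝ}
    (hR : Supp R φ) : Integrable fun y => expNegInvGlue (w y) * ip (φ y) (φ y) :=
  Supp.integrable (ρ := R) (fun x hx => by simp only [hR x hx, map_zero, mul_zero])
    ((continuous_eta.comp hw).mul (hφ.ip hφ).cont)

theorem NY_nonneg (ρ : ℝ) (φ : E3 → SV) : 0 ≤ NY ρ φ :=
  integral_nonneg fun _ => mul_nonneg (expNegInvGlue.nonneg _) (ip_self_nonneg _)

theorem jb_rpow_le_one {b : ℝ} (hb : b ≤ 0) (y : E3) : jb y ^ b ≤ 1 :=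
  Real.rpow_le_one_of_one_le_of_nonpos (one_le_jb y) hb

theorem DY_le_BY (hθ : 0 ≤ θ) {r a a' ν : ℝ} (ha : 2 * a' ≤ r + 2 * a) {φ : E3 → SV}
    (hφ : φ ∈ DD) : DY r a φ ≤ BY n θ a' ν φ φ := by
  obtain ⟨R, -, hR⟩ := hφ.2.1
  refine integral_mono (integrable_DY hφ) (integrable_BY hφ.1 hR hφ.1) fun y => ?_
  refine mul_le_mul ?_ (ip_le_bb hθ φ y) (ip_self_nonneg _) (wy_pos _ _).le
  unfold wy
  rw [← Real.rpow_add (jb_pos y)]
  exact Real.rpow_le_rpow_of_exponent_le (one_le_jb y) (by linarith)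

theorem DY_le_NY (hθ : 0 ≤ θ) {r a ε : ℝ} (ν : ℝ) (hr : 1 ≤ r) (ha : 0 ≤ a) (hε : 0 < ε) :
    ∃ ρ C : ℝ, 0 ≤ ρ ∧ 0 ≤ C ∧ ∀ φ ∈ DD, DY r a φ ≤ ε * BY n θ a ν φ φ + C * NY ρ φ := by
  have h1 : 0 < expNegInvGlue 1 := expNegInvGlue.pos_of_pos one_pos
  refine ⟨ε⁻¹ + 1, (expNegInvGlue 1)⁻¹, by positivity, by positivity, fun φ hφ => ?_⟩
  obtain ⟨R, -, hR⟩ := hφ.2.1
  have i1 := (integrable_BY (n := n) (θ := θ) (a := a) (ν := ν) hφ.1 hR hφ.1).const_mul ε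
  have i2 := (integrable_eta (w := fun y => (ε⁻¹ + 1) ^ 2 - ‖y‖ ^ 2) (by fun_prop) hφ.1
    hR).const_mul (expNegInvGlue 1)⁻¹
  unfold BY NY
  rw [← integral_const_mul, ← integral_const_mul, ← integral_add i1 i2]
  refine integral_mono (integrable_DY hφ) (i1.add i2) fun y => ?_
  have q0 := ip_self_nonneg (φ y)
  have q1 := ip_le_bb (n := n) (σ := sy ν) hθ φ y
  have w0 := (wy_pos a y).le
  have t1 : 0 ≤ ε * (wy a y * bb n θ (sy ν) φ φ y) := by
    have := q0.trans q1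
    positivity
  have t2 : 0 ≤ (expNegInvGlue 1)⁻¹ *
      (expNegInvGlue ((ε⁻¹ + 1) ^ 2 - ‖y‖ ^ 2) * ip (φ y) (φ y)) := by
    have := expNegInvGlue.nonneg ((ε⁻¹ + 1) ^ 2 - ‖y‖ ^ 2)
    positivity
  by_cases hy : ‖y‖ ≤ ε⁻¹
  · have h2 : expNegInvGlue 1 ≤ expNegInvGlue ((ε⁻¹ + 1) ^ 2 - ‖y‖ ^ 2) :=
      expNegInvGlue.monotone (by nlinarith [norm_nonneg y, inv_pos.mpr hε])
    have h3 : 1 ≤ (expNegInvGlue 1)⁻¹ * expNegInvGlue ((ε⁻¹ + 1) ^ 2 - ‖y‖ ^ 2) := by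
      rw [← div_eq_inv_mul, le_div_iff₀ h1, one_mul]; exact h2
    have h5 : jb y ^ (-r) * wy a y ≤ 1 :=
      mul_le_one₀ (jb_rpow_le_one (by linarith) y) w0 (jb_rpow_le_one (by linarith) y)
    have h6 := mul_le_mul_of_nonneg_right (h5.trans h3) q0
    simp only [mul_assoc] at h6 ⊢
    linarith
  · have h2 : jb y ^ (-r) ≤ ε := by
      refine (Real.rpow_le_rpow_of_exponent_le (one_le_jb y) (neg_le_neg hr)).trans ?_
      rw [Real.rpow_neg_one]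
      exact inv_le_of_inv_le₀ hε ((not_le.mp hy).le.trans (norm_le_jb y))
    have h3 : jb y ^ (-r) * (wy a y * ip (φ y) (φ y)) ≤ ε * (wy a y * bb n θ (sy ν) φ φ y) :=
      mul_le_mul h2 (mul_le_mul_of_nonneg_left q1 w0) (mul_nonneg w0 q0) hε.le
    simp only [mul_assoc] at h3 ⊢
    linarith

theorem two_BY_le (hθ : 0 ≤ θ) {a ν L : ℝ} (hL : 0 < L) {φ ψ : E3 → SV} (hφ : φ ∈ DD)
    (hψ : ψ ∈ DD) : 2 * BY n θ a ν φ ψ ≤ L⁻¹ * BY n θ a ν φ φ + L * BY n θ a ν ψ ψ := by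
  obtain ⟨R, -, hR⟩ := hφ.2.1
  obtain ⟨R', -, hR'⟩ := hψ.2.1
  have i1 := (integrable_BY (n := n) (θ := θ) (a := a) (ν := ν) hφ.1 hR hφ.1).const_mul L⁻¹
  have i2 := (integrable_BY (n := n) (θ := θ) (a := a) (ν := ν) hψ.1 hR' hψ.1).const_mul L
  unfold BY
  rw [← integral_const_mul, ← integral_const_mul, ← integral_const_mul, ← integral_add i1 i2]
  refine integral_mono ((integrable_BY hφ.1 hR hψ.1).const_mul 2) (i1.add i2) fun y => ?_
  have := mul_le_mul_of_nonneg_left (two_bb_le (n := n) (σ := sy ν) hθ φ ψ hL y) (wy_pos a y).le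
  simp only
  linarith

theorem BY_comb_le (a ν : ℝ) {m : ℕ} {φ : Fin m → E3 → SV} (hφ : ∀ i, φ i ∈ DD) :
    ∃ C : ℝ, 0 ≤ C ∧ ∀ (c : Fin m → ℝ) (M : ℝ), (∀ i, |c i| ≤ M) →
      BY n θ a ν (∑ i, c i • φ i) (∑ i, c i • φ i) ≤ C * M ^ 2 := by
  let ψ : Fin m → DD := fun i => ⟨φ i, hφ i⟩
  refine ⟨∑ j, ∑ i, |BF n θ a ν (ψ i) (ψ j)|, by positivity, fun c M hc => ?_⟩
  have e : BY n θ a ν (∑ i, c i • φ i) (∑ i, c i • φ i)
      = BF n θ a ν (∑ i, c i • ψ i) (∑ i, c i • ψ i) := by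
    rw [BF_apply]; simp [ψ]
  rw [e]
  simp only [map_sum, map_smul, LinearMap.sum_apply, LinearMap.smul_apply, smul_eq_mul,
    Finset.mul_sum, Finset.sum_mul]
  refine Finset.sum_le_sum fun j _ => Finset.sum_le_sum fun i _ => (le_abs_self _).trans ?_
  rw [abs_mul, abs_mul]
  have h0 : 0 ≤ M := (abs_nonneg _).trans (hc i)
  calc |c j| * (|c i| * |BF n θ a ν (ψ i) (ψ j)|) ≤ M * (M * |BF n θ a ν (ψ i) (ψ j)|) := by
        gcongr <;> apply hc
    _ = _ := by ring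

/-- Local `L^2` bound for the free solutions on a unit time interval. -/
theorem NY_out_le (h : Ctx B F K s1) {ρ : ℝ} (hρ : 0 ≤ ρ) : ∃ ρ' C : ℝ, 0 ≤ C ∧
    ∀ V V' G : ℝ → E3 → SV, WS F V V' G → (∀ s x, G s x = 0) →
      ∀ t ∈ Icc (0 : ℝ) 1, NY ρ (out V t) ≤ C * NY ρ' (V 0) := by
  obtain ⟨Λ, hΛ, hc⟩ := cone_sol K h.K0
  obtain ⟨Kc, hKc⟩ := hc (sc F) 0 1 0 ρ (h.tame0 0) hρ
  refine ⟨ρ + Λ, Real.exp 1 ^ 3 * Real.exp |Kc|, by positivity, fun V V' G hV hG t ht => ?_⟩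
  have h1 := hKc V V' G hV.sol (fun s _ x _ => hG s x) t ht
  simp only [sub_zero, neg_zero, Real.exp_zero, mul_one] at h1
  obtain ⟨R, -, hR⟩ := hV.supp
  have hsm := hV.sol.sm.sm.slice t
  have e1 : NY ρ (out V t) = Real.exp t ^ 3 *
      ∫ x, expNegInvGlue (ρ ^ 2 - ‖Real.exp t • x‖ ^ 2) * ip (V t x) (V t x) := by
    have := integral_scale (fun x => expNegInvGlue (ρ ^ 2 - ‖Real.exp t • x‖ ^ 2)
      * ip (V t x) (V t x)) (Real.exp_pos (-t))
    simp only [exp_smul_exp_neg] at this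
    unfold NY out
    rw [this, Real.exp_neg, inv_pow, inv_inv]
  have h2 : ∫ x, expNegInvGlue (ρ ^ 2 - ‖Real.exp t • x‖ ^ 2) * ip (V t x) (V t x) ≤
      ∫ x, expNegInvGlue ((ρ + Λ * Real.exp (-t)) ^ 2 - ‖x‖ ^ 2) * ip (V t x) (V t x) := by
    refine integral_mono (integrable_eta (by fun_prop) hsm (hR t))
      (integrable_eta (by fun_prop) hsm (hR t)) fun x => ?_
    refine mul_le_mul_of_nonneg_right (expNegInvGlue.monotone ?_) (ip_self_nonneg _)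
    have h3 : ‖x‖ ≤ ‖Real.exp t • x‖ := by
      rw [norm_exp_smul]; exact le_mul_of_one_le_left (norm_nonneg _) (Real.one_le_exp ht.1)
    have h4 : 0 ≤ Λ * Real.exp (-t) := by positivity
    nlinarith [norm_nonneg x]
  have h3 : Real.exp (Kc * t) ≤ Real.exp |Kc| := Real.exp_le_exp.mpr <|
    (le_abs_self _).trans (by
      rw [abs_mul, abs_of_nonneg ht.1]; exact mul_le_of_le_one_right (abs_nonneg _) ht.2)
  have h4 := NY_nonneg (ρ + Λ) (V 0)
  have h5 : Real.exp t ^ 3 ≤ Real.exp 1 ^ 3 := by gcongr; exact ht.2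
  rw [e1]
  calc _ ≤ Real.exp t ^ 3 * (NY (ρ + Λ) (V 0) * Real.exp (Kc * t)) := by
        gcongr; exact h2.trans h1
    _ ≤ Real.exp 1 ^ 3 * (NY (ρ + Λ) (V 0) * Real.exp |Kc|) := by gcongr
    _ = _ := by ring

end Pool.Agent.MP_187b32_an.Lin
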