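import Pool.Agent.MP_187b32_an.Lin.Form

/-! The autonomous flow on compactly supported functions, built from the solver on the torus. -/

set_option autoImplicit false

open Filter Topology MeasureTheory Set Pool.Agent.Boltz

noncomputable section

namespace Pool.Agent.MP_187b32_an.Lin

/-- The data extracted from the background. -/
structure Ctx (B : BgD) (F : Fld) (K s1 : ℝ) : Prop where
  ok : B.Ok
  K0 : 0 ≤ K
  s10 : 0 ≤ s1
  ag : ∀ s x, ‖x‖ < 1 / 8 → Agree (B.fld s) (sc F s) x x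
  tame : Tame B.fld K s1
  tame0 : ∀ s, Tame (sc F) K s

theorem exists_ctx {B : BgD} (hB : B.Ok) : ∃ F K s1, Ctx B F K s1 := by
  obtain ⟨F, K, s1, h1, h2, h3, h4, h5⟩ := exists_yfld B hB
  exact ⟨F, K, s1, hB, h1, h2, h3, h4, h5⟩

theorem Tame.mono {F : ℝ → Fld} {K s1 s2 : ℝ} (h : Tame F K s1) (h12 : s1 ≤ s2) : Tame F K s2 :=
  ⟨h.smu, h.smc, fun s hs => h.bu s (h12.trans hs), fun s hs => h.bc s (h12.trans hs),
    fun s hs => h.b0 s (h12.trans hs), fun s hs => h.b1 s (h12.trans hs),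
    fun s hs => h.b2 s (h12.trans hs)⟩

variable {B : BgD} {F : Fld} {K s1 : ℝ}

theorem torus_supp (h : Ctx B F K s1) : ∃ Λ : ℝ, 0 ≤ Λ ∧ ∀ (s0 ρ : ℝ) (W W' G : ℝ → E3 → SV),
    s1 ≤ s0 → Sol B.fld s0 W W' G → (∀ x, ρ < ‖red x‖ → W s0 x = 0) →
    (∀ s, s0 ≤ s → ∀ x, ρ < ‖red x‖ → G s x = 0) →
    ∀ s, s0 ≤ s → ∀ p, ρ + Λ * Real.exp (-s0) < ‖red p‖ → W s p = 0 := by
  obtain ⟨Λ, hΛ, hz⟩ := cone_zero K h.K0
  refine ⟨Λ, hΛ, fun s0 ρ W W' G hs0 hW h0 hG s hs p hp => ?_⟩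
  have key : ∀ x, ‖x - p‖ ≤ (‖red p‖ - ρ - Λ * Real.exp (-s0)) / 2 + Λ * Real.exp (-s0) →
      ρ < ‖red x‖ := by
    intro x hx
    have := lipschitz_norm_red x p
    rw [norm_sub_rev] at this
    linarith
  exact hz B.fld s0 p _ (h.tame.mono hs0) (by linarith) W W' G hW
    (fun t ht x hx => hG t ht x (key x hx)) (fun x hx => h0 x (key x hx)) s hs

theorem supp_cut {χ : E3 → ℝ} (hχ : Supp (1 / 4) χ) {W : E3 → SV} {ρ : ℝ}
    (hW : ∀ p, ρ < ‖red p‖ → W p = 0) : Supp ρ fun x => χ x • W x := by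
  intro x hx
  by_cases h2 : ‖x‖ < 1 / 2
  · simp only [hW x (by rwa [red_eq_self h2]), smul_zero]
  · simp only [hχ x (lt_of_lt_of_le (by norm_num) (not_lt.mp h2)), zero_smul]

theorem per_cut {χ : E3 → ℝ} (h1 : ∀ x, ‖x‖ ≤ 1 / 8 → χ x = 1) {W : E3 → SV} (pW : Per W) {ρ : ℝ}
    (hρ : ρ < 1 / 8) (hW : ∀ p, ρ < ‖red p‖ → W p = 0) : (per fun x => χ x • W x) = W := by
  funext x
  rw [per, pW.red]
  by_cases h2 : ‖red x‖ ≤ 1 / 8
  · rw [h1 _ h2, one_smul]
  · rw [hW x (hρ.trans (not_le.mp h2)), smul_zero]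

theorem cut_per {χ : E3 → ℝ} (h1 : ∀ x, ‖x‖ ≤ 1 / 8 → χ x = 1) (hχ : Supp (1 / 4) χ)
    {φ : E3 → SV} {ρ : ℝ} (hρ : ρ < 1 / 8) (hφ : Supp ρ φ) (x : E3) : χ x • per φ x = φ x := by
  by_cases h2 : ‖x‖ ≤ 1 / 8
  · rw [h1 x h2, one_smul, per_eq _ (h2.trans_lt (by norm_num))]
  · rw [hφ x (hρ.trans (not_le.mp h2))]
    exact supp_cut hχ (W := per φ) (fun p hp => hφ _ hp) x (hρ.trans (not_le.mp h2))

theorem Sol.unper (h : Ctx B F K s1) {χ : E3 → ℝ} (hs : Sm χ) (h1 : ∀ x, ‖x‖ ≤ 1 / 8 → χ x = 1)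
    (hχ : Supp (1 / 4) χ) {s0 ρ : ℝ} {W W' G : ℝ → E3 → SV} (hρ : ρ < 1 / 8)
    (hW : Sol B.fld s0 W W' fun s => per (G s)) (hG : ∀ s, s0 ≤ s → Supp ρ (G s))
    (hz : ∀ s, s0 ≤ s → ∀ p, ρ < ‖red p‖ → W s p = 0) :
    Sol (sc F) s0 (fun s x => χ x • W s x) (fun s x => χ x • W' s x) G := by
  refine ⟨(hs.smD.smul hW.sm).congr_deriv fun s x => by simp,
    fun s x => by rw [map_smul, hW.hyd], fun s hs0 x => ?_⟩
  have he := hW.eqn s hs0 x
  by_cases h8 : ‖x‖ < 1 / 8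
  · have e : (fun y => χ y • W s y) =ᶠ[𝓝 x] W s :=
      ((isOpen_lt continuous_norm continuous_const).eventually_mem h8).mono fun y hy => by
        simp only [h1 y (le_of_lt hy), one_smul]
    rw [tr_congr_ev _ e, h1 x h8.le, one_smul, ← (h.ag s x h8).tr rfl fun _ => rfl, he,
      per_eq _ (h8.trans (by norm_num))]
  · have hx : ρ < ‖x‖ := hρ.trans_le (not_lt.mp h8)
    rw [tr_zero_ev _ ((supp_cut hχ (hz s hs0)).ev hx), map_zero, add_zero, hG s hs0 x hx]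
    by_cases h2 : ‖x‖ < 1 / 2
    · have e : W s =ᶠ[𝓝 x] fun _ => 0 :=
        (red_far (x := x) (ρ := ρ) (by rwa [red_eq_self h2])).mono fun y hy => hz s hs0 y hy
      rw [tr_zero_ev _ e, map_zero, add_zero, per_eq _ h2, hG s hs0 x hx] at he
      rw [he, smul_zero]
    · rw [hχ x (lt_of_lt_of_le (by norm_num) (not_lt.mp h2)), zero_smul]

theorem Sol.per (h : Ctx B F K s1) {s0 ρ : ℝ} {V V' G : ℝ → E3 → SV} (hρ : ρ < 1 / 8)
    (hV : Sol (sc F) s0 V V' G) (hs : ∀ s, Supp ρ (V s)) :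
    Sol B.fld s0 (fun s => per (V s)) (fun s => per (V' s)) fun s => per (G s) := by
  have hρ2 : ρ < 1 / 2 := hρ.trans (by norm_num)
  refine ⟨hV.sm.per hs hρ2, fun s x => hV.hyd s _, fun s hs0 x => ?_⟩
  have e : (B.fld s).tr (Boltz.per (V s)) x = (B.fld s).tr (V s) (red x) :=
    (agree_red (h.ok.fldC.reg s) x).tr rfl fun i => by
      rw [dX_per (hV.sm.sm.dif s) (hs s) hρ2]; rfl
  rw [e]
  refine Eq.trans ?_ (hV.eqn s hs0 (red x))
  congr 2
  by_cases h8 : ‖red x‖ < 1 / 8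
  · exact (h.ag s _ h8).tr rfl fun _ => rfl
  · have := (hs s).ev (hρ.trans_le (not_lt.mp h8))
    rw [tr_zero_ev _ this, tr_zero_ev _ this]

/-- The forcing in the variables `(s, x)`. -/
def frc {m : ℕ} (φ : Fin m → E3 → SV) (c : ℝ → Fin m → ℝ) (s : ℝ) (x : E3) : SV :=
  ∑ i, c s i • φ i (Real.exp s • x)

/-- Compactly supported solutions on the whole space, for `s ≥ 0`. -/
structure WS (F : Fld) (W W' G : ℝ → E3 → SV) : Prop where
  sol : Sol (sc F) 0 W W' G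
  supp : ∃ ρ, 0 ≤ ρ ∧ ∀ s, Supp ρ (W s)

/-- The solution at time `t` as a function of `y`. -/
def out (W : ℝ → E3 → SV) (t : ℝ) (y : E3) : SV := W t (Real.exp (-t) • y)

theorem out_zero (W : ℝ → E3 → SV) : out W 0 = W 0 := by
  funext y; simp [out]

theorem supp_scale_neg {α : Type*} [Zero α] {φ : E3 → α} {R : ℝ} (hφ : Supp R φ) (t : ℝ) :
    Supp (Real.exp t * R) fun x => φ (Real.exp (-t) • x) :=
  supp_scale_exp hφ (by rw [neg_neg])

theorem WS.out_mem {W W' G : ℝ → E3 → SV} (h : WS F W W' G) (t : ℝ) : out W t ∈ DD := by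
  obtain ⟨ρ, h0, hρ⟩ := h.supp
  exact ⟨(h.sol.sm.sm.slice t).scale _, ⟨_, by positivity, supp_scale_neg (hρ t) t⟩,
    fun y => h.sol.hyd _ _⟩

theorem WS.add {W W' G V V' H : ℝ → E3 → SV} (h : WS F W W' G) (k : WS F V V' H) :
    WS F (fun s x => W s x + V s x) (fun s x => W' s x + V' s x) fun s x => G s x + H s x := by
  obtain ⟨ρ, h0, hρ⟩ := h.supp
  obtain ⟨ρ', -, hρ'⟩ := k.supp
  refine ⟨h.sol.add k.sol, max ρ ρ', h0.trans (le_max_left _ _), fun s x hx => ?_⟩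
  simp only [hρ s x ((le_max_left _ _).trans_lt hx), hρ' s x ((le_max_right _ _).trans_lt hx),
    add_zero]

theorem WS.smul {W W' G : ℝ → E3 → SV} (h : WS F W W' G) (a : ℝ) :
    WS F (fun s x => a • W s x) (fun s x => a • W' s x) fun s x => a • G s x := by
  obtain ⟨ρ, h0, hρ⟩ := h.supp
  exact ⟨h.sol.smul a, ρ, h0, fun s x hx => by simp only [hρ s x hx, smul_zero]⟩

theorem frc_shift {m : ℕ} (φ : Fin m → E3 → SV) (c : ℝ → Fin m → ℝ) (θ s : ℝ) (x : E3) :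
    frc φ c (s + θ) (Real.exp (-θ) • x) = frc φ (fun t => c (t + θ)) s x := by
  simp only [frc, smul_smul, ← Real.exp_add, add_neg_cancel_right]

theorem out_shift (W : ℝ → E3 → SV) (θ t : ℝ) :
    out (fun s x => W (s + θ) (Real.exp (-θ) • x)) t = out W (t + θ) := by
  funext y
  simp only [out, smul_smul, ← Real.exp_add]
  congr 3; ring

theorem WS.shift {m : ℕ} {φ : Fin m → E3 → SV} {c : ℝ → Fin m → ℝ} {W W' : ℝ → E3 → SV}
    (h : WS F W W' (frc φ c)) {θ : ℝ} (hθ : 0 ≤ θ) :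
    WS F (fun s x => W (s + θ) (Real.exp (-θ) • x)) (fun s x => W' (s + θ) (Real.exp (-θ) • x))
      (frc φ fun t => c (t + θ)) := by
  obtain ⟨ρ, h0, hρ⟩ := h.supp
  exact ⟨(h.sol.scale θ).congr (by linarith) fun s _ x => frc_shift φ c θ s x,
    Real.exp θ * ρ, by positivity, fun s => supp_scale_neg (hρ _) θ⟩

theorem WS.unique (h : Ctx B F K s1) {W W' V V' G : ℝ → E3 → SV} (hW : WS F W W' G)
    (hV : WS F V V' G) (h0 : W 0 = V 0) (s : ℝ) (hs : 0 ≤ s) : W s = V s := by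
  obtain ⟨Λ, -, hz⟩ := cone_zero K h.K0
  funext p
  have := hz (sc F) 0 p 1 (h.tame0 0) one_pos _ _ _ (hW.sol.add (hV.sol.smul (-1)))
    (fun s _ x _ => by simp) (fun x _ => by simp [h0]) s hs
  simpa [add_neg_eq_zero] using this

/-- A torus solution with small support comes from a solution on the whole space. -/
theorem exists_WS_of_torus (h : Ctx B F K s1) {m : ℕ} {φ : Fin m → E3 → SV} {R : ℝ}
    (hφ : ∀ i, Supp R (φ i)) (hR : 0 ≤ R) : ∃ s2, s1 ≤ s2 ∧ ∀ s0, s2 ≤ s0 →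
      Real.exp (-s0) * R < 1 / 8 ∧
      ∀ (c : ℝ → Fin m → ℝ) (W0 : E3 → SV) (W W' G : ℝ → E3 → SV), Supp R W0 →
        Sol B.fld s0 W W' G → (∀ s, Per (W s)) → W s0 = (per fun x => W0 (Real.exp s0 • x)) →
        (∀ s, s0 ≤ s → G s = per (frc φ c s)) →
        ∃ V V', WS F V V' (frc φ fun t => c (t + s0)) ∧ V 0 = W0 ∧ ∀ s, s0 ≤ s →
          Supp (Real.exp s / 8) (out V (s - s0)) ∧
          W s = per fun x => out V (s - s0) (Real.exp s • x) := by
  obtain ⟨Λ, hΛ, hT⟩ := torus_supp h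
  obtain ⟨χ, hχs, hχ1, hχ, -⟩ := exists_cut (a := 1 / 8) (b := 1 / 4) (by norm_num) (by norm_num)
  obtain ⟨s2, hs2, hsm⟩ := exists_time (R + Λ) (1 / 8) s1 (by norm_num)
  refine ⟨s2, hs2, fun s0 hs0 => ?_⟩
  have h1 := hsm s0 hs0
  have h2 : Real.exp (-s0) * R ≤ Real.exp (-s0) * R + Λ * Real.exp (-s0) :=
    le_add_of_nonneg_right (by positivity)
  have hρ : Real.exp (-s0) * R + Λ * Real.exp (-s0) < 1 / 8 := by linarith
  refine ⟨h2.trans_lt hρ, fun c W0 W W' G hW0 hW pW h0 hG => ?_⟩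
  have hf : ∀ s, s0 ≤ s → Supp (Real.exp (-s0) * R) (frc φ c s) := fun s hs x hx =>
    Finset.sum_eq_zero fun i _ => by
      rw [show φ i (Real.exp s • x) = 0 from supp_scale_exp (s := s) (hφ i) (by gcongr) x hx,
        smul_zero]
  have hd : Supp (Real.exp (-s0) * R) fun x => W0 (Real.exp s0 • x) := supp_scale_exp hW0 le_rfl
  have hz := hT s0 _ W W' G (hs2.trans hs0) hW (fun x hx => by rw [h0]; exact hd _ hx)
    fun s hs x hx => by rw [hG s hs]; exact hf s hs _ hx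
  have hS := (Sol.unper h hχs hχ1 hχ hρ (hW.congr le_rfl fun s hs x => congrFun (hG s hs) x)
    (fun s hs => (hf s hs).mono h2) hz).scale s0
  refine ⟨_, _, ⟨hS.congr (by linarith) fun s _ x => frc_shift φ c s0 s x,
    Real.exp s0 * (1 / 4), by positivity, fun s => supp_scale_neg
      (φ := fun x => χ x • W (s + s0) x) (fun x hx => by simp only [hχ x hx, zero_smul]) s0⟩,
    ?_, fun s hs => ?_⟩
  · funext x
    simp only [zero_add, h0]
    rw [cut_per hχ1 hχ (h2.trans_lt hρ) hd, exp_smul_exp_neg]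
  · rw [out_shift (fun s x => χ x • W s x), sub_add_cancel]
    constructor
    · refine (supp_scale_neg (supp_cut hχ (hz s hs)) s).mono ?_
      rw [div_eq_mul_one_div]
      exact mul_le_mul_of_nonneg_left hρ.le (Real.exp_pos s).le
    · simp only [out, exp_neg_smul_exp]
      exact (per_cut hχ1 (pW s) hρ (hz s hs)).symm

theorem exists_WS (h3 : M3hStmt) (h : Ctx B F K s1) {m : ℕ} {φ : Fin m → E3 → SV}
    (hφ : ∀ i, φ i ∈ DD) {c : ℝ → Fin m → ℝ} (hc : Continuous c) {W0 : E3 → SV} (hW0 : W0 ∈ DD) :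
    ∃ V V', WS F V V' (frc φ c) ∧ V 0 = W0 := by
  obtain ⟨R1, hR1, h1⟩ := exists_supp_family hφ
  obtain ⟨R2, -, h2⟩ := hW0.2.1
  obtain ⟨θ, -, hθ⟩ := exists_WS_of_torus h (R := max R1 R2)
    (fun i => (h1 i).mono (le_max_left _ _)) (hR1.trans (le_max_left _ _))
  obtain ⟨hsm, hex⟩ := hθ θ le_rfl
  have hR : 0 ≤ max R1 R2 := hR1.trans (le_max_left _ _)
  have h12 : Real.exp (-θ) * max R1 R2 < 1 / 2 := hsm.trans (by norm_num)
  let S : ℝ → E3 → SV := fun s x => ∑ i, c (s - θ) i • φ i (Real.exp (max s θ) • x)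
  have hS : SmC S := SmC.sum _ fun i _ => (SmC.of_time (by fun_prop)).smul
    ((hφ i).1.smC.scale (lam := fun s => Real.exp (max s θ)) (by fun_prop))
  have hSs : ∀ s, Supp (Real.exp (-θ) * max R1 R2) (S s) := fun s x hx =>
    Finset.sum_eq_zero fun i _ => by
      rw [show φ i (Real.exp (max s θ) • x) = 0 from supp_scale_exp (s := max s θ)
        ((h1 i).mono (le_max_left _ _)) (by gcongr; exact le_max_right _ _) x hx, smul_zero]
  obtain ⟨W, W', hW, pW, -, hh, h0, he⟩ := h3 B.fld θ (fun s => per (S s))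
    (per fun x => W0 (Real.exp θ • x)) h.ok.fldC (hS.per hSs h12) (fun s => per_per _)
    (fun s x => by simp only [per, S, map_sum, map_smul, (hφ _).2.2])
    ((hW0.1.scale _).per (supp_scale_exp (h2.mono (le_max_right _ _)) le_rfl) h12) (per_per _)
    (fun x => hW0.2.2 _)
  obtain ⟨V, V', hV, hV0, -⟩ := hex (fun s => c (s - θ)) W0 W W' _ (h2.mono (le_max_right _ _))
    ⟨hW, hh, he⟩ pW h0 fun s hs => by
      simp only [S, max_eq_left hs]; rfl
  simp only [add_sub_cancel_right] at hV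
  exact ⟨V, V', hV, hV0⟩

/-- The time one map. -/
theorem exists_flow (h3 : M3hStmt) (h : Ctx B F K s1) {m : ℕ} {φ : Fin m → E3 → SV}
    (hφ : ∀ i, φ i ∈ DD) : ∃ Φ : DD × C(ℝ, Fin m → ℝ) →ₗ[ℝ] DD,
      ∀ (W W' : ℝ → E3 → SV) (p : DD × C(ℝ, Fin m → ℝ)), WS F W W' (frc φ p.2) → W 0 = p.1 →
        (Φ p : E3 → SV) = out W 1 := by
  choose V V' hV hV0 using fun p : DD × C(ℝ, Fin m → ℝ) =>
    exists_WS h3 h hφ p.2.continuous p.1.2
  have key : ∀ (W W' : ℝ → E3 → SV) (p : DD × C(ℝ, Fin m → ℝ)), WS F W W' (frc φ p.2) →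
      W 0 = p.1 → out (V p) 1 = out W 1 := fun W W' p hW h0 => by
    unfold out
    rw [(hV p).unique h hW ((hV0 p).trans h0.symm) 1 zero_le_one]
  refine ⟨{ toFun := fun p => ⟨out (V p) 1, (hV p).out_mem 1⟩
            map_add' := fun p q => Subtype.ext ?_
            map_smul' := fun a p => Subtype.ext ?_ }, key⟩
  · have h1 := (hV p).add (hV q)
    have e : (fun s x => frc φ p.2 s x + frc φ q.2 s x) = frc φ (p + q).2 := by
      funext s x
      simp [frc, add_smul, Finset.sum_add_distrib]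
    rw [e] at h1
    exact key _ _ (p + q) h1 (by funext x; simp [hV0])
  · have h1 := (hV p).smul a
    have e : (fun s x => a • frc φ p.2 s x) = frc φ (a • p).2 := by
      funext s x
      simp [frc, Finset.smul_sum, smul_smul]
    rw [e] at h1
    exact key _ _ (a • p) h1 (by funext x; simp [hV0])

end Pool.Agent.MP_187b32_an.Lin
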