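import Pool.Agent.MP_187b32_an.Lin.En
import Pool.Agent.MP_187b32_an.Dich.Abstract

/-! Module M5: choice of the finitely many free parameters. -/

set_option autoImplicit false

open Filter Topology MeasureTheory Set Pool.Agent.Boltz

noncomputable section

namespace Pool.Agent.MP_187b32_an.Lin

/-- Compactness of the embedding of the energy space in local `L^2`. -/
def RellichStmt : Prop :=
  ∀ (n : ℕ) (θ a ν ρ ε : ℝ), 4 ≤ n → 0 < θ → θ ≤ 1 → 0 < ε →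
    ∃ (m : ℕ) (l : Fin m → DD →ₗ[ℝ] ℝ) (K : ℝ), (∀ k φ, l k φ ^ 2 ≤ K * BF n θ a ν φ φ) ∧
      ∀ φ : DD, NY ρ φ ≤ ε * BF n θ a ν φ φ + ∑ k, l k φ ^ 2

theorem decay_gronwall {e e' : ℝ → ℝ} {δ A : ℝ} (hδ : 0 < δ) (hd : ∀ t, HasDerivAt e (e' t) t)
    (hb : ∀ t, 0 ≤ t → e' t ≤ Real.exp (-δ * t) * (e t + A)) {t : ℝ} (ht : 0 ≤ t)
    (h0 : 0 ≤ e t + A) : e t + A ≤ (e 0 + A) * Real.exp δ⁻¹ := by
  have hf : ∀ t, HasDerivAt (fun t => (e t + A) * Real.exp (δ⁻¹ * Real.exp (-δ * t)))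
      (Real.exp (δ⁻¹ * Real.exp (-δ * t)) * (e' t - Real.exp (-δ * t) * (e t + A))) t := by
    intro t
    have h1 : HasDerivAt (fun t => -δ * t) (-δ) t := by simpa using (hasDerivAt_id t).const_mul (-δ)
    refine (((hd t).add_const A).mul ((h1.exp.const_mul δ⁻¹).exp)).congr_deriv ?_
    field_simp
    ring
  have hanti := antitoneOn_of_deriv_nonpos (convex_Ici (0 : ℝ))
    (fun t _ => (hf t).continuousAt.continuousWithinAt)
    (fun t _ => (hf t).differentiableAt.differentiableWithinAt) fun t ht => by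
      rw [(hf t).deriv]
      rw [interior_Ici] at ht
      exact mul_nonpos_of_nonneg_of_nonpos (Real.exp_pos _).le (sub_nonpos.mpr (hb t (le_of_lt ht)))
  have h1 := hanti (le_refl (0 : ℝ)) ht ht
  simp only [mul_zero, Real.exp_zero, mul_one] at h1
  exact (le_mul_of_one_le_right h0 (Real.one_le_exp (by positivity))).trans h1

/-- Translation in time. -/
def shiftC (m : ℕ) (τ : ℝ) : C(ℝ, Fin m → ℝ) →ₗ[ℝ] C(ℝ, Fin m → ℝ) where
  toFun c := c.comp ⟨fun t => t + τ, by fun_prop⟩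
  map_add' _ _ := rfl
  map_smul' _ _ := rfl

theorem coe_shiftC (m : ℕ) (τ : ℝ) (c : C(ℝ, Fin m → ℝ)) :
    (shiftC m τ c : ℝ → Fin m → ℝ) = fun t => c (t + τ) := rfl

variable {B : BgD} {F : Fld} {n : ℕ} {θ CE : ℝ}

/-- The energy inequality for the solutions on the whole space. -/
def EnIneq (B : BgD) (F : Fld) (n : ℕ) (θ CE : ℝ) : Prop :=
  ∀ a, 0 ≤ a → a ≤ 1 / 4 → ∀ (m : ℕ) (φ : Fin m → E3 → SV),
    (∀ i, φ i ∈ DD) → ∀ (c : ℝ → Fin m → ℝ) (V V' : ℝ → E3 → SV), WS F V V' (frc φ c) →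
    ∃ e e' : ℝ → ℝ, (∀ t, HasDerivAt e (e' t) t) ∧ ∀ t, 0 ≤ t →
      e t = BY n θ a B.nu (out V t) (out V t) ∧
      e' t + 2 * a * e t ≤ CE * DY B.r a (out V t)
        + 2 * BY n θ a B.nu (∑ i, c t i • φ i) (out V t)

theorem unit_growth (hB : B.Ok) (hθ : 0 ≤ θ) (hCE : 0 < CE) (hE : EnIneq B F n θ CE) {m : ℕ}
    {φ : Fin m → E3 → SV} (hφ : ∀ i, φ i ∈ DD) : ∃ C : ℝ, 0 ≤ C ∧
      ∀ (c : ℝ → Fin m → ℝ) (V V' : ℝ → E3 → SV) (M : ℝ), WS F V V' (frc φ c) →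
        (∀ t ∈ Icc (0 : ℝ) 1, ∀ i, |c t i| ≤ M) → ∀ t ∈ Icc (0 : ℝ) 1,
          BY n θ (1 / 4) B.nu (out V t) (out V t) ≤
            C * (BY n θ (1 / 4) B.nu (V 0) (V 0) + M ^ 2) := by
  obtain ⟨Cφ, hCφ, hφb⟩ := BY_comb_le (n := n) (θ := θ) (1 / 4) B.nu hφ
  refine ⟨(1 + Cφ) * Real.exp (CE + 1), by positivity, fun c V V' M hV hc t ht => ?_⟩
  obtain ⟨e, e', hd, he⟩ := hE (1 / 4) (by norm_num) le_rfl m φ hφ c V V' hV
  have h1 := gronwall_le' (a := 0) (b := 1) (K := CE + 1) (H := Cφ * M ^ 2) hd (by positivity)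
    (fun s hs => by
      obtain ⟨h1, h2⟩ := he s hs.1
      have h3 := DY_le_BY (n := n) hθ (r := B.r) (a := 1 / 4) (a' := 1 / 4) (ν := B.nu)
        (by linarith [hB.r_gt]) (hV.out_mem s)
      have h4 := two_BY_le (n := n) hθ (a := 1 / 4) (ν := B.nu) one_pos (comb_mem hφ (c s))
        (hV.out_mem s)
      have h5 := hφb (c s) M (hc s hs)
      have h6 := BY_nonneg (n := n) hθ (1 / 4) B.nu (out V s)
      rw [← h1] at h3 h4 h6
      have h7 := mul_le_mul_of_nonneg_left h3 hCE.le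
      rw [inv_one] at h4
      linarith) t ht
  rw [(he t ht.1).1, (he 0 le_rfl).1, out_zero, sub_zero, abs_of_pos (by positivity)] at h1
  have h2 : Real.exp ((CE + 1) * t) ≤ Real.exp (CE + 1) :=
    Real.exp_le_exp.mpr (mul_le_of_le_one_right (by positivity) ht.2)
  have h3 := BY_nonneg (n := n) hθ (1 / 4) B.nu (V 0)
  have h4 : Cφ * M ^ 2 * t * Real.exp ((CE + 1) * t) ≤ Cφ * M ^ 2 * 1 * Real.exp (CE + 1) := by
    gcongr; exact ht.2
  have h5 := mul_le_mul_of_nonneg_left h2 h3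
  have h6 : 0 ≤ Cφ * Real.exp (CE + 1) * BY n θ (1 / 4) B.nu (V 0) (V 0) := by positivity
  have h7 : 0 ≤ Real.exp (CE + 1) * M ^ 2 := by positivity
  linarith only [h1, h4, h5, h6, h7]

theorem free_contract {K s1 : ℝ} (h : Ctx B F K s1) (hθ : 0 ≤ θ) (hCE : 0 < CE)
    (hE : EnIneq B F n θ CE) {m : ℕ} {φ : Fin m → E3 → SV} (hφ : ∀ i, φ i ∈ DD) {η : ℝ}
    (hη : 0 < η) : ∃ ρ C : ℝ, 0 ≤ C ∧ ∀ V V' : ℝ → E3 → SV, WS F V V' (frc φ 0) →
      BY n θ (1 / 4) B.nu (out V 1) (out V 1) ≤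
        Real.exp (-1 / 2 + η) * BY n θ (1 / 4) B.nu (V 0) (V 0) + C * NY ρ (V 0) := by
  obtain ⟨ρ, C2, hρ, hC2, hD⟩ := DY_le_NY (n := n) hθ (r := B.r) (a := 1 / 4) (ε := η / CE) B.nu
    (by linarith [h.ok.r_gt]) (by norm_num) (by positivity)
  obtain ⟨ρ', C3, hC3, hN⟩ := NY_out_le h hρ
  refine ⟨ρ', CE * C2 * C3 * Real.exp |-1 / 2 + η|, by positivity, fun V V' hV => ?_⟩
  obtain ⟨e, e', hd, he⟩ := hE (1 / 4) (by norm_num) le_rfl m φ hφ 0 V V' hV
  have h0 := NY_nonneg ρ' (V 0)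
  have h1 := gronwall_le' (a := 0) (b := 1) (K := -1 / 2 + η) (H := CE * C2 * C3 * NY ρ' (V 0)) hd
    (by positivity) (fun s hs => by
      obtain ⟨h1, h2⟩ := he s hs.1
      have h3 := mul_le_mul_of_nonneg_left (hD _ (hV.out_mem s)) hCE.le
      have h4 := mul_le_mul_of_nonneg_left (hN V V' _ hV (fun s x => by simp [frc]) s hs)
        (mul_nonneg hCE.le hC2)
      have h5 : BY n θ (1 / 4) B.nu (∑ i, (0 : ℝ → Fin m → ℝ) s i • φ i) (out V s) = 0 := by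
        have h6 : BY n θ (1 / 4) B.nu 0 (out V s) = 0 :=
          (BF n θ (1 / 4) B.nu).map_zero₂ ⟨_, hV.out_mem s⟩
        simpa using h6
      rw [h5] at h2
      rw [← h1, mul_add, ← mul_assoc, mul_div_cancel₀ _ hCE.ne'] at h3
      linarith only [h2, h3, h4]) 1 ⟨zero_le_one, le_rfl⟩
  rw [(he 1 zero_le_one).1, (he 0 le_rfl).1, out_zero, sub_zero, mul_one, mul_one, mul_one] at h1
  linarith

theorem m5_of (hR : RellichStmt) (h3 : M3hStmt) (h4 : M4hStmt) : M5Stmt := by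
  intro B hB
  obtain ⟨F, K, s1, h⟩ := exists_ctx hB
  obtain ⟨n0, hn0⟩ := energy_WS h4 h
  refine ⟨max n0 4, fun n hn θ hθ hθ1 m φ hφ' δ1 hδ1 hδ4 => ?_⟩
  obtain ⟨CE, hCE, hE⟩ := hn0 n ((le_max_left _ _).trans hn) θ hθ hθ1
  have hφ := fun i => inD_iff.mp (hφ' i)
  obtain ⟨Φ, hΦ⟩ := exists_flow h3 h hφ
  obtain ⟨C1, hC1, hG⟩ := unit_growth hB hθ.le hCE hE hφ
  obtain ⟨ρ, C4, hC4, hF⟩ := free_contract h hθ.le hCE hE hφ (η := 1 / 4 - δ1) (by linarith)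
  set A := Real.exp (-1 / 2 + (1 / 4 - δ1)) with hA
  have hA0 : 0 < A := Real.exp_pos _
  have hAq : A < Real.exp (-δ1) ^ 2 := by
    rw [← exp_neg_two]; exact Real.exp_lt_exp.mpr (by linarith)
  set g := (Real.exp (-δ1) ^ 2 - A) / 2 with hg
  have hg0 : 0 < g := by rw [hg]; linarith
  obtain ⟨k, l, Kl, hl, hN⟩ := hR n θ (1 / 4) B.nu ρ (g / (C4 + 1)) ((le_max_right _ _).trans hn)
    hθ hθ1 (by positivity)
  obtain ⟨q2, hq2, hdich⟩ := Dich.dichotomy (BF n θ (1 / 4) B.nu) (BF_symm _ _)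
    (BF_nonneg hθ.le _ _) (Φ ∘ₗ LinearMap.inl ℝ _ _) (fun j => √C4 • l j) (C4 * Kl)
    (fun j x => by
      rw [LinearMap.smul_apply, smul_eq_mul, mul_pow, Real.sq_sqrt hC4, mul_assoc]
      exact mul_le_mul_of_nonneg_left (hl j x) hC4)
    (√(A + g)) (Real.exp (-δ1)) (Real.sqrt_nonneg _)
    ((Real.sqrt_lt' (Real.exp_pos _)).mpr (by rw [hg]; linarith)) fun x => by
      obtain ⟨V, V', hV, hV0⟩ := exists_WS h3 h hφ (c := 0) continuous_const x.2
      have h1 := hF V V' hV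
      have h2 := mul_le_mul_of_nonneg_left (hN x) hC4
      have h5 : C4 * (g / (C4 + 1)) ≤ g := by
        rw [← mul_div_assoc, div_le_iff₀ (by positivity)]; linarith only [hg0]
      have h6 := mul_le_mul_of_nonneg_right h5 (BF_nonneg (n := n) hθ.le (1 / 4) B.nu x)
      simp only [LinearMap.smul_apply, smul_eq_mul, mul_pow, Real.sq_sqrt hC4, ← Finset.mul_sum,
        Real.sq_sqrt (add_pos hA0 hg0).le]
      rw [BF_apply, LinearMap.comp_apply, LinearMap.inl_apply, hΦ V V' (x, 0) hV hV0]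
      rw [hV0, ← BF_apply] at h1
      linarith only [h1, h2, h6]
  refine ⟨max (-Real.log q2) (δ1 / 2), max_lt ?_ (by linarith), fun δ hδ0 hδ => ?_⟩
  · rw [neg_lt, Real.lt_log_iff_exp_lt ((Real.exp_pos _).trans hq2)]; exact hq2
  have hδp : 0 < δ := lt_of_le_of_lt (by linarith [le_max_right (-Real.log q2) (δ1 / 2)]) hδ0
  obtain ⟨m', ψ, a, Cd, hCd, hd⟩ := hdich (Real.exp (-δ)) (Real.exp_lt_exp.mpr (by linarith)) (by
    rw [← Real.lt_log_iff_exp_lt ((Real.exp_pos _).trans hq2), neg_lt]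
    exact (le_max_left _ _).trans_lt hδ0)
  obtain ⟨R1, hR1, hφR⟩ := exists_supp_family hφ
  obtain ⟨R2, -, hψR⟩ := exists_supp_family fun i => (ψ i).2
  obtain ⟨s2, hs2, hT⟩ := exists_WS_of_torus h (R := max R1 R2)
    (fun i => (hφR i).mono (le_max_left _ _)) (hR1.trans (le_max_left _ _))
  obtain ⟨Cφ, hCφ, hφb⟩ := BY_comb_le (n := n) (θ := θ) 0 B.nu hφ
  obtain ⟨Cψ, hCψ, hψb⟩ := BY_comb_le (n := n) (θ := θ) 0 B.nu fun i => (ψ i).2
  set C5 := C1 * (Cd ^ 2 * C1 + 1) * Real.exp 1 ^ 2 with hC5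
  have hC50 : 0 ≤ C5 := by positivity
  set C6 := (Cψ * (Cd ^ 2 * C1) + (CE * C5 + Cφ)) * Real.exp δ⁻¹ with hC6
  have hC60 : 0 ≤ C6 := by positivity
  let ff : C(ℝ, Fin m → ℝ) →ₗ[ℝ] (ℕ → DD) :=
    LinearMap.pi fun j : ℕ => Φ ∘ₗ LinearMap.inr ℝ _ _ ∘ₗ shiftC m j
  refine ⟨m', fun i => ψ i, Cd * √C1 + C5 + C6 + 1, s2, by positivity,
    fun i => inD_iff.mpr (ψ i).2, fun s0 hs0 => ⟨a ∘ₗ ff ∘ₗ shiftC m s0, fun c M hM hc => ?_⟩⟩
  have hs00 : 0 ≤ s0 := h.s10.trans (hs2.trans hs0)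
  set d := shiftC m s0 c with hdd
  set N := M * Real.exp (-δ * s0) with hNd
  have hN0 : 0 ≤ N := by positivity
  have hNM : N ≤ M := mul_le_of_le_one_right hM
    (Real.exp_le_one_iff.mpr (by linarith only [mul_nonneg hδp.le hs00]))
  have hdb : ∀ t, 0 ≤ t → ∀ i, |d t i| ≤ N * Real.exp (-δ * t) := fun t ht i => by
    refine (hc (t + s0) (by linarith) i).trans (le_of_eq ?_)
    rw [hNd, mul_assoc, ← Real.exp_add]; congr 2; ring
  have hq : ∀ j : ℕ, Real.exp (-δ) ^ j = Real.exp (-δ * j) := fun j => by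
    rw [← Real.exp_nat_mul, mul_comm]
  have hdj : ∀ j : ℕ, ∀ t ∈ Icc (0 : ℝ) 1, ∀ i, |d (t + j) i| ≤ N * Real.exp (-δ) ^ j := by
    intro j t ht i
    refine (hdb _ (add_nonneg ht.1 j.cast_nonneg) i).trans ?_
    rw [hq]
    exact mul_le_mul_of_nonneg_left (Real.exp_le_exp.mpr
      (by linarith only [mul_nonneg hδp.le ht.1])) hN0
  obtain ⟨hab, hx⟩ := hd (ff d) (√C1 * N) (by positivity) fun j => by
    obtain ⟨V, V', hV, hV0⟩ := exists_WS h3 h hφ (shiftC m j d).continuous DD.zero_mem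
    have h1 := hG _ V V' _ hV (hdj j) 1 ⟨zero_le_one, le_rfl⟩
    have h2 : BY n θ (1 / 4) B.nu (0 : E3 → SV) 0 = 0 := (BF n θ (1 / 4) B.nu 0).map_zero
    have h5 : ((ff d j : DD) : E3 → SV) = out V 1 := hΦ V V' (0, shiftC m j d) hV hV0
    rw [hV0, h2, zero_add] at h1
    rw [BF_apply, h5, mul_assoc, mul_pow, Real.sq_sqrt hC1]
    exact h1
  have hab' : ∀ i, |a (ff d) i| ≤ Cd * √C1 * N := fun i => (hab i).trans (le_of_eq (by ring))
  refine ⟨fun i => (hab' i).trans ?_, fun W W' hW pW hh h0 heq => ?_⟩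
  · exact mul_le_mul (by linarith only [hC50, hC60]) hNM hN0 (by positivity)
  obtain ⟨hsm, hT⟩ := hT s0 hs0
  have hsm' : ∀ s, s0 ≤ s → Real.exp (-s) * max R1 R2 < 1 / 8 := fun s hs =>
    lt_of_le_of_lt (by have := hR1.trans (le_max_left R1 R2); gcongr) hsm
  obtain ⟨V, V', hV, hV0, hWV⟩ := hT c (∑ i, a (ff d) i • (ψ i : E3 → SV)) W W' _
    (fun x hx => by
      rw [Finset.sum_apply]
      exact Finset.sum_eq_zero fun i _ => by
        rw [Pi.smul_apply, hψR i x ((le_max_right _ _).trans_lt hx), smul_zero])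
    ⟨hW, hh, heq⟩ pW (by
      funext x
      rw [h0 x]
      simp only [per_eq_per B ((hψR _).mono (le_max_right R1 R2)) hsm, per, Finset.sum_apply,
        Pi.smul_apply]
      rfl) fun s hs => by
      funext x
      simp only [per_eq_per B ((hφR _).mono (le_max_left R1 R2)) (hsm' s hs), per, frc]
  have hV' : WS F V V' (frc φ d) := hV
  have hint := hx (fun j => ⟨out V j, hV.out_mem j⟩)
    (Subtype.ext (by simp [out_zero, hV0])) fun j => Subtype.ext (by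
      have h1 := hΦ _ _ (⟨out V j, hV.out_mem j⟩, shiftC m j d) (hV'.shift j.cast_nonneg)
        (by funext x; simp [out])
      rw [out_shift] at h1
      have h2 : (Φ ∘ₗ LinearMap.inl ℝ _ _) ⟨out V j, hV.out_mem j⟩ + ff d j
          = Φ (⟨out V j, hV.out_mem j⟩, shiftC m j d) := by
        show Φ (_, 0) + Φ (0, _) = _
        rw [← map_add]; simp
      rw [h2, h1]
      simp [add_comm])
  have h14 : ∀ t, 0 ≤ t →
      BY n θ (1 / 4) B.nu (out V t) (out V t) ≤ C5 * (N * Real.exp (-δ * t)) ^ 2 := by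
    intro t ht
    set j := ⌊t⌋₊ with hj
    have hj1 : (j : ℝ) ≤ t := Nat.floor_le ht
    have hj2 : t < j + 1 := Nat.lt_floor_add_one t
    have h1 := hG _ _ _ _ (hV'.shift j.cast_nonneg) (hdj j) (t - j) ⟨by linarith, by linarith⟩
    have h2 := hint j
    rw [BF_apply] at h2
    rw [out_shift, sub_add_cancel, ← out_zero (fun s x => V (s + j) (Real.exp (-(j : ℝ)) • x)),
      out_shift, zero_add] at h1
    have h5 : Real.exp (-δ) ^ j ≤ Real.exp 1 * Real.exp (-δ * t) := by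
      rw [hq, ← Real.exp_add]
      exact Real.exp_le_exp.mpr (by
        linarith only [mul_le_mul_of_nonneg_left hj2.le hδp.le, hδ, hδ4])
    have h6 : (N * Real.exp (-δ) ^ j) ^ 2 ≤ (N * (Real.exp 1 * Real.exp (-δ * t))) ^ 2 := by
      gcongr
    have h7 : (Cd * (√C1 * N) * Real.exp (-δ) ^ j) ^ 2
        = Cd ^ 2 * C1 * (N * Real.exp (-δ) ^ j) ^ 2 := by
      conv_rhs => rw [← Real.sq_sqrt hC1]
      ring
    rw [h7] at h2
    calc _ ≤ C1 * (Cd ^ 2 * C1 * (N * Real.exp (-δ) ^ j) ^ 2 + (N * Real.exp (-δ) ^ j) ^ 2) :=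
          h1.trans (by gcongr)
      _ = C1 * (Cd ^ 2 * C1 + 1) * (N * Real.exp (-δ) ^ j) ^ 2 := by ring
      _ ≤ C1 * (Cd ^ 2 * C1 + 1) * (N * (Real.exp 1 * Real.exp (-δ * t))) ^ 2 := by gcongr
      _ = _ := by rw [hC5]; ring
  have h00 : ∀ t, 0 ≤ t → BY n θ 0 B.nu (out V t) (out V t) ≤ C6 * N ^ 2 := by
    intro t ht
    obtain ⟨e, e', hed, he⟩ := hE 0 le_rfl (by norm_num) m φ hφ d V V' hV'
    have hA0 : 0 ≤ (CE * C5 + Cφ) * N ^ 2 := by positivity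
    have h1 := decay_gronwall (A := (CE * C5 + Cφ) * N ^ 2) hδp hed (fun s hs => by
      obtain ⟨h1, h2⟩ := he s hs
      have h5 := mul_le_mul_of_nonneg_left ((DY_le_BY (n := n) hθ.le (r := B.r) (a := 0)
        (a' := 1 / 4) (ν := B.nu) (by linarith [hB.r_gt]) (hV.out_mem s)).trans (h14 s hs)) hCE.le
      have hx0 := Real.exp_pos (-δ * s)
      have h6 := two_BY_le (n := n) hθ.le (a := 0) (ν := B.nu) hx0 (comb_mem hφ (d s))
        (hV.out_mem s)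
      have h7 := mul_le_mul_of_nonneg_left (hφb (d s) _ (hdb s hs)) (inv_pos.mpr hx0).le
      have h8 : (Real.exp (-δ * s))⁻¹ * (Cφ * (N * Real.exp (-δ * s)) ^ 2)
          = Real.exp (-δ * s) * (Cφ * N ^ 2) := by field_simp
      have h9 : Real.exp (-δ * s) ≤ 1 := Real.exp_le_one_iff.mpr
        (by linarith only [mul_nonneg hδp.le hs])
      have h10 : CE * (C5 * (N * Real.exp (-δ * s)) ^ 2)
          ≤ Real.exp (-δ * s) * (CE * C5 * N ^ 2) := by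
        have : 0 ≤ CE * C5 * N ^ 2 * Real.exp (-δ * s) := by positivity
        linarith only [mul_le_mul_of_nonneg_left h9 this]
      rw [← h1] at h6
      linarith only [h2, h5, h6, h7, h8, h10]) ht (by
        rw [(he t ht).1]; exact add_nonneg (BY_nonneg hθ.le _ _ _) hA0)
    rw [(he t ht).1, (he 0 le_rfl).1, out_zero, hV0] at h1
    have h2 := hψb _ _ hab'
    have h5 : Cψ * (Cd * √C1 * N) ^ 2 = Cψ * (Cd ^ 2 * C1) * N ^ 2 := by
      conv_rhs => rw [← Real.sq_sqrt hC1]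
      ring
    rw [h5] at h2
    have h6 := mul_le_mul_of_nonneg_right h2 (Real.exp_pos δ⁻¹).le
    rw [hC6]
    linarith only [h1, h6, hA0]
  intro s hs
  obtain ⟨hsup, hWs⟩ := hWV s hs
  have hmem := hV.out_mem (s - s0)
  have hsmall : Real.exp (-s) * (Real.exp s / 8) < 1 / 4 := by
    rw [← mul_div_assoc, ← Real.exp_add]; norm_num
  rw [hWs, E_per_per' B _ hmem.1 hsup hmem.1 hsup hsmall,
    E_per_per' B _ hmem.1 hsup hmem.1 hsup hsmall]
  have hc0 : 0 ≤ Cd * √C1 := by positivity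
  constructor
  · refine (h14 _ (sub_nonneg.mpr hs)).trans ?_
    have e : (N * Real.exp (-δ * (s - s0))) ^ 2 = M ^ 2 * Real.exp (-2 * δ * s) := by
      rw [hNd, mul_assoc, ← Real.exp_add, mul_pow, ← Real.exp_nat_mul]
      congr 2; push_cast; ring
    rw [e, mul_assoc _ (M ^ 2)]
    exact mul_le_mul_of_nonneg_right (by linarith only [hc0, hC60]) (by positivity)
  · refine (h00 _ (sub_nonneg.mpr hs)).trans ?_
    exact mul_le_mul (by linarith) (by gcongr) (by positivity) (by positivity)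

end Pool.Agent.MP_187b32_an.Lin
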