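import Pool.Agent.MP_187b32_an.Lin.M5
import Pool.Agent.MP_187b32_an.KK.Comp

/-! Module M5 from the modules M3 and M4. -/

set_option autoImplicit false

open Filter Topology MeasureTheory Set Pool.Agent.Boltz

noncomputable section

namespace Pool.Agent.MP_187b32_an.Lin

theorem rellich : RellichStmt := by
  intro n θ a ν ρ ε hn hθ hθ1 hε
  have hη : Supp (|ρ| + ‖(0 : E3)‖) fun y : E3 => expNegInvGlue (ρ ^ 2 - ‖y‖ ^ 2) := by
    simpa using supp_eta 0 (abs_nonneg ρ) fun _ => 1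
  have hI : Integrable fun y : E3 => expNegInvGlue (ρ ^ 2 - ‖y‖ ^ 2) :=
    hη.integrable (continuous_eta.comp (by fun_prop))
  set I := ∫ y : E3, expNegInvGlue (ρ ^ 2 - ‖y‖ ^ 2) with hId
  have hI0 : 0 ≤ I := integral_nonneg fun _ => expNegInvGlue.nonneg _
  obtain ⟨m, φ, h⟩ := KK.point_le n ν a |ρ| hn hθ hθ1 (ε := ε / (I + 1)) (by positivity)
  let ψ : Fin m → DD := fun i => ⟨φ i, inD_iff.mp (φ i).2⟩
  have hp := BF_nonneg (n := n) hθ.le a ν
  refine ⟨m, fun k => √(4 * I) • BF n θ a ν (ψ k), 4 * I * ∑ k, BF n θ a ν (ψ k) (ψ k),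
    fun k Z => ?_, fun Z => ?_⟩
  · rw [LinearMap.smul_apply, smul_eq_mul, mul_pow, Real.sq_sqrt (by positivity), mul_assoc _ _
      (BF n θ a ν Z Z)]
    refine mul_le_mul_of_nonneg_left ?_ (by positivity)
    refine (LinearMap.BilinForm.apply_sq_le_of_symm _ hp ⟨BF_symm a ν⟩ _ _).trans ?_
    exact mul_le_mul_of_nonneg_right
      (Finset.single_le_sum (f := fun k => BF n θ a ν (ψ k) (ψ k)) (fun k _ => hp _)
        (Finset.mem_univ k)) (hp Z)
  · obtain ⟨R, -, hR⟩ := Z.2.2.1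
    have h1 : NY ρ Z ≤ I * (ε / (I + 1) * BF n θ a ν Z Z + 4 * ∑ k, BF n θ a ν (ψ k) Z ^ 2) := by
      rw [hId, ← integral_mul_const]
      refine integral_mono (integrable_eta (by fun_prop) Z.2.1 hR) (hI.mul_const _) fun y => ?_
      by_cases hy : ‖y‖ ≤ |ρ|
      · exact mul_le_mul_of_nonneg_left (h ⟨Z, inD_iff.mpr Z.2⟩ y hy) (expNegInvGlue.nonneg _)
      · have h2 : expNegInvGlue (ρ ^ 2 - ‖y‖ ^ 2) = 0 := hη y (by simpa using hy)
        simp only [h2, zero_mul, le_refl]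
    have h2 : I * (ε / (I + 1)) ≤ ε := by
      rw [← mul_div_assoc, div_le_iff₀ (by positivity)]; linarith
    have h3 := mul_le_mul_of_nonneg_right h2 (hp Z)
    simp only [LinearMap.smul_apply, smul_eq_mul, mul_pow, Real.sq_sqrt (by positivity : 0 ≤ 4 * I),
      ← Finset.mul_sum]
    linarith

theorem m5 (h3 : M3hStmt) (h4 : M4hStmt) : M5Stmt := m5_of rellich h3 h4

end Pool.Agent.MP_187b32_an.Lin
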