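import Pool.Agent.MP_187b32_an.Lin.Fld
import Pool.Agent.MP_187b32_an.Spec.Bg

/-! The background near the origin is the rescaling of an autonomous field. -/

set_option autoImplicit false

open Filter Topology MeasureTheory Set Pool.Agent.Boltz
open scoped ContDiff

noncomputable section

namespace Pool.Agent.MP_187b32_an.Lin

theorem box_of_norm_le {a : ℝ} {x : E3} (h : ‖x‖ ≤ a) : box a x := fun i =>
  le_trans (by simpa using PiLp.norm_apply_le x i) h

theorem box_red (x : E3) : box (1 / 2) (red x) := fun i => by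
  rw [red_apply]; exact abs_sub_round _

theorem box.mono' {a b : ℝ} {x : E3} (h : box a x) (hab : a ≤ b) : box b x :=
  fun i => (h i).trans hab

theorem exists_time (ρ a s1 : ℝ) (ha : 0 < a) : ∃ s, s1 ≤ s ∧ ∀ t, s ≤ t → Real.exp (-t) * ρ < a := by
  have h : Tendsto (fun t : ℝ => Real.exp (-t) * ρ) atTop (𝓝 0) := by
    simpa using Real.tendsto_exp_neg_atTop_nhds_zero.mul_const ρ
  obtain ⟨s, hs⟩ := eventually_atTop.mp (h.eventually (gt_mem_nhds ha))
  exact ⟨max s s1, le_max_right _ _, fun t ht => hs t ((le_max_left _ _).trans ht)⟩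

theorem exp_smul_exp_neg (s : ℝ) (y : E3) : Real.exp s • Real.exp (-s) • y = y := by
  rw [smul_smul, ← Real.exp_add]; simp

theorem exp_neg_smul_exp (s : ℝ) (y : E3) : Real.exp (-s) • Real.exp s • y = y := by
  rw [smul_smul, ← Real.exp_add]; simp

theorem norm_exp_smul (s : ℝ) (y : E3) : ‖Real.exp s • y‖ = Real.exp s * ‖y‖ := by
  rw [norm_smul, Real.norm_eq_abs, abs_of_pos (Real.exp_pos s)]

variable (B : BgD)

theorem rho2_nonneg (x : E3) : 0 ≤ B.cut.rho2 x := by
  rw [← B.cut.per_rho2.red x]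
  exact le_trans (by positivity) (B.cut.rho2_ge _ (box_red x))

theorem exp_neg_two (s : ℝ) : Real.exp (-2 * s) = Real.exp (-s) ^ 2 := by
  rw [← Real.exp_nat_mul]; congr 1; push_cast; ring

theorem exp_le_Lam (s : ℝ) (x : E3) : Real.exp (-s) ≤ B.Lam s x := by
  apply Real.le_sqrt_of_sq_le
  rw [exp_neg_two]
  linarith [rho2_nonneg B x]

theorem Lam_pos (s : ℝ) (x : E3) : 0 < B.Lam s x := (Real.exp_pos _).trans_le (exp_le_Lam B s x)

theorem om_pos (a s : ℝ) (x : E3) : 0 < B.om a s x :=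
  mul_pos (Real.exp_pos _) (Real.rpow_pos_of_pos (Lam_pos B s x) _)

theorem mu_pos (s : ℝ) (x : E3) : 0 < B.mu s x :=
  mul_pos (Real.exp_pos _) (Real.rpow_pos_of_pos (Lam_pos B s x) _)

theorem sig_pos (s : ℝ) (x : E3) : 0 < B.sig s x :=
  add_pos_of_pos_of_nonneg (Real.exp_pos _) (Real.sqrt_nonneg _)

theorem Lam_rpow_le (s : ℝ) (x : E3) {b : ℝ} (hb : b ≤ 0) :
    B.Lam s x ^ b ≤ Real.exp (-(b * s)) := by
  refine (Real.rpow_le_rpow_of_nonpos (Real.exp_pos _) (exp_le_Lam B s x) hb).trans (le_of_eq ?_)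
  rw [← Real.exp_mul]; congr 1; ring

theorem mu_le_one (hB : B.Ok) (s : ℝ) (x : E3) : B.mu s x ≤ 1 := by
  have h := Lam_rpow_le B s x (b := -B.r) (by linarith [hB.r_gt])
  refine (mul_le_mul_of_nonneg_left h (Real.exp_pos _).le).trans (le_of_eq ?_)
  rw [← Real.exp_add]; simp

theorem mu_om_le (hB : B.Ok) (s : ℝ) (x : E3) : B.mu s x * B.om 0 s x ≤ B.om (1 / 4) s x := by
  have h := Lam_rpow_le B s x (b := 1 / 2 - B.r) (by linarith [hB.r_gt])
  have hL := Lam_pos B s x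
  have e : B.mu s x * B.om 0 s x = Real.exp (-B.r * s) * B.Lam s x ^ (1 / 2 - B.r)
      * B.Lam s x ^ (-3 - 2 * (1 / 4) : ℝ) := by
    simp only [BgD.mu, BgD.om, mul_zero, zero_mul, Real.exp_zero, one_mul, sub_zero, mul_assoc,
      ← Real.rpow_add hL]
    congr 2; ring
  rw [e, BgD.om]
  refine mul_le_mul_of_nonneg_right ?_ (Real.rpow_pos_of_pos hL _).le
  refine (mul_le_mul_of_nonneg_left h (Real.exp_pos _).le).trans (le_of_eq ?_)
  rw [← Real.exp_add]; congr 1; ring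

theorem sig_le (hB : B.Ok) {s : ℝ} (hs : 0 ≤ s) (x : E3) : B.sig s x ≤ 3 := by
  have h1 : Real.exp (-s) ≤ 1 := Real.exp_le_one_iff.mpr (by linarith)
  have h2 : Real.exp (-2 * s) ≤ 1 := Real.exp_le_one_iff.mpr (by linarith)
  have h3 : B.nu ^ 2 ≤ 1 := pow_le_one₀ hB.nu_pos.le hB.nu_le
  have h4 : B.nu ^ 2 * B.cut.rho2 x ≤ 1 * 3 :=
    mul_le_mul h3 (B.cut.rho2_le x) (rho2_nonneg B x) zero_le_one
  have h5 : √(Real.exp (-2 * s) + B.nu ^ 2 * B.cut.rho2 x) ≤ 2 :=
    Real.sqrt_le_iff.mpr ⟨by norm_num, by linarith⟩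
  unfold BgD.sig
  linarith

theorem per_Lam (s : ℝ) : Per (B.Lam s) := fun i x => by simp only [BgD.Lam, B.cut.per_rho2 i x]
theorem per_om (a s : ℝ) : Per (B.om a s) := fun i x => by simp only [BgD.om, per_Lam B s i x]
theorem per_mu (s : ℝ) : Per (B.mu s) := fun i x => by simp only [BgD.mu, per_Lam B s i x]
theorem per_sig (s : ℝ) : Per (B.sig s) := fun i x => by simp only [BgD.sig, B.cut.per_rho2 i x]

/-- Japanese bracket. -/
def jb (y : E3) : ℝ := √(1 + ‖y‖ ^ 2)

theorem one_le_jb (y : E3) : 1 ≤ jb y := Real.one_le_sqrt.mpr (by nlinarith [norm_nonneg y])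
theorem jb_pos (y : E3) : 0 < jb y := zero_lt_one.trans_le (one_le_jb y)
theorem norm_le_jb (y : E3) : ‖y‖ ≤ jb y := Real.le_sqrt_of_sq_le (by linarith)
theorem continuous_jb : Continuous jb := by unfold jb; fun_prop

/-- The weight in the variable `y`. -/
def wy (a : ℝ) (y : E3) : ℝ := jb y ^ (-3 - 2 * a)

/-- The length scale in the variable `y`. -/
def sy (ν : ℝ) (y : E3) : ℝ := 1 + √(1 + ν ^ 2 * ‖y‖ ^ 2)

theorem wy_pos (a : ℝ) (y : E3) : 0 < wy a y := Real.rpow_pos_of_pos (jb_pos y) _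
theorem continuous_wy (a : ℝ) : Continuous (wy a) :=
  continuous_jb.rpow_const fun y => Or.inl (jb_pos y).ne'
theorem one_le_sy (ν : ℝ) (y : E3) : 1 ≤ sy ν y := le_add_of_nonneg_right (Real.sqrt_nonneg _)
theorem continuous_sy (ν : ℝ) : Continuous (sy ν) := by unfold sy; fun_prop

theorem sqrt_scale (s c : ℝ) (x : E3) :
    √(Real.exp (-2 * s) + c * ‖x‖ ^ 2) = Real.exp (-s) * √(1 + c * ‖Real.exp s • x‖ ^ 2) := by
  rw [← Real.sqrt_sq (Real.exp_pos (-s)).le, ← Real.sqrt_mul (sq_nonneg _), norm_exp_smul,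
    exp_neg_two]
  congr 1
  have : Real.exp (-s) * Real.exp s = 1 := by rw [← Real.exp_add]; simp
  linear_combination (-c * ‖x‖ ^ 2 * (Real.exp (-s) * Real.exp s + 1)) * this

theorem Lam_eq (s : ℝ) {x : E3} (hx : ‖x‖ ≤ 1 / 4) :
    B.Lam s x = Real.exp (-s) * jb (Real.exp s • x) := by
  have := sqrt_scale s 1 x
  simp only [one_mul] at this
  rw [BgD.Lam, B.cut.rho2_eq x (box_of_norm_le hx), this, jb]

theorem Lam_rpow_eq (s b : ℝ) {x : E3} (hx : ‖x‖ ≤ 1 / 4) :
    B.Lam s x ^ b = Real.exp (-(b * s)) * jb (Real.exp s • x) ^ b := by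
  rw [Lam_eq B s hx, Real.mul_rpow (Real.exp_pos _).le (jb_pos _).le, ← Real.exp_mul]
  congr 2; ring

theorem om_eq (a s : ℝ) {x : E3} (hx : ‖x‖ ≤ 1 / 4) :
    B.om a s x = Real.exp s ^ 3 * wy a (Real.exp s • x) := by
  rw [BgD.om, Lam_rpow_eq B s _ hx, ← mul_assoc, ← Real.exp_add, ← Real.exp_nat_mul, wy]
  congr 2; push_cast; ring

theorem mu_eq (s : ℝ) {x : E3} (hx : ‖x‖ ≤ 1 / 4) :
    B.mu s x = jb (Real.exp s • x) ^ (-B.r) := by
  rw [BgD.mu, Lam_rpow_eq B s _ hx, ← mul_assoc, ← Real.exp_add]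
  simp

theorem sig_eq (s : ℝ) {x : E3} (hx : ‖x‖ ≤ 1 / 4) :
    B.sig s x = Real.exp (-s) * sy B.nu (Real.exp s • x) := by
  rw [BgD.sig, B.cut.rho2_eq x (box_of_norm_le hx), sqrt_scale, sy]
  ring

theorem per_eq_per {φ : E3 → SV} {R s : ℝ} (hφ : Supp R φ) (hs : Real.exp (-s) * R < 1 / 8) :
    B.per φ s = per fun x => φ (Real.exp s • x) := by
  funext x
  have hp : Per (B.per φ s) := fun i x => by
    simp only [BgD.per, B.cut.per_chi i x, B.cut.per_pi i x]
  rw [← hp.red x, per]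
  set z := red x
  have hz : box (1 / 2) z := box_red x
  unfold BgD.per
  by_cases h8 : box (1 / 8) z
  · rw [B.cut.chi_one z h8, B.cut.pi_eq z (box.mono' h8 (by norm_num)), one_smul]
  have h0 : φ (Real.exp s • z) = 0 := by
    apply hφ
    have h1 : 1 / 8 < ‖z‖ := lt_of_not_ge fun h => h8 (box_of_norm_le h)
    have h2 := mul_lt_mul_of_pos_left (hs.trans h1) (Real.exp_pos s)
    rw [← mul_assoc, ← Real.exp_add] at h2
    rw [norm_exp_smul]
    simpa using h2
  by_cases h5 : box (1 / 5) z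
  · rw [B.cut.pi_eq z (box.mono' h5 (by norm_num)), h0, smul_zero]
  · rw [B.cut.chi_zero z hz h5, zero_smul, h0]

theorem scal_deriv {a : ℝ → E3 → ℝ} {A : E3 → ℝ} {ρ : ℝ} (hA : ContDiff ℝ ∞ A)
    (h : ∀ s x, box (1 / 8) x → a s x = Real.exp (ρ * s) * A (Real.exp s • x)) (s : ℝ) {x : E3}
    (hx : ‖x‖ < 1 / 8) :
    dS a s x = Real.exp (ρ * s) *
        (ρ * A (Real.exp s • x) + fderiv ℝ A (Real.exp s • x) (Real.exp s • x)) ∧
      ∀ i, dX i (a s) x = Real.exp (ρ * s) * (Real.exp s * dX i A (Real.exp s • x)) := by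
  constructor
  · have e : (fun t => a t x) = fun t => Real.exp (ρ * t) * A (Real.exp t • x) :=
      funext fun t => h t x (box_of_norm_le hx.le)
    have h1 : HasDerivAt (fun t : ℝ => Real.exp t • x) (Real.exp s • x) s :=
      (Real.hasDerivAt_exp s).smul_const x
    have h2 := ((hA.differentiable (by simp)) (Real.exp s • x)).hasFDerivAt.comp_hasDerivAt s h1
    have h3 : HasDerivAt (fun t => Real.exp (ρ * t)) (Real.exp (ρ * s) * ρ) s := by
      simpa using ((hasDerivAt_id s).const_mul ρ).exp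
    rw [dS, e]
    refine ((h3.mul h2).deriv).trans ?_
    simp only [Function.comp_apply]
    ring
  · intro i
    have e : a s =ᶠ[𝓝 x] fun y => Real.exp (ρ * s) • A (Real.exp s • y) :=
      ((isOpen_lt continuous_norm continuous_const).eventually_mem hx).mono fun y hy =>
        h s y (box_of_norm_le (le_of_lt hy))
    have hs := sm_of_contDiff hA
    rw [dX_congr_ev e, dX_const_smul (hs.scale _).dif, dX_scale hs.dif]
    simp

theorem exists_yfld (hB : B.Ok) : ∃ (F : Fld) (K s1 : ℝ), 0 ≤ K ∧ 0 ≤ s1 ∧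
    (∀ s x, ‖x‖ < 1 / 8 → Agree (B.fld s) (sc F s) x x) ∧ Tame B.fld K s1 ∧
    ∀ s, Tame (sc F) K s := by
  obtain ⟨U, C, hU, hC, hsc⟩ := hB.scal
  obtain ⟨K1, hK1⟩ := hB.sym
  obtain ⟨K2, lam, s1, -, hs1, hK2⟩ := hB.hyp
  set ρ := B.r - 1 with hρ
  let mt : (E3 → ℝ) → E3 → ℝ := fun A y => ρ * A y + fderiv ℝ A y y + ∑ i, U i y * dX i A y
  let F : Fld :=
    { u := U
      c := C
      b0 := fun j y => -mt (U j) y / C y
      b1 := fun i j y => -dX i (U j) y - if i = j then mt C y / C y else 0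
      b2 := fun i y => -dX i C y }
  have e0 : ∀ s, Real.exp (-B.r * s) * Real.exp (ρ * s) = Real.exp (-s) := fun s => by
    rw [← Real.exp_add]; congr 1; rw [hρ]; ring
  have e1 : ∀ s, Real.exp (-s) * Real.exp s = 1 := fun s => by rw [← Real.exp_add]; simp
  have hag : ∀ s x, ‖x‖ < 1 / 8 → Agree (B.fld s) (sc F s) x x := by
    intro s x hx
    have hbx := box_of_norm_le hx.le
    have hu := fun j => scal_deriv (hU j) (fun s x h => (hsc s x h).1 j) s hx
    have hc := scal_deriv hC (fun s x h => (hsc s x h).2) s hx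
    have hmat : ∀ {a : ℝ → E3 → ℝ} {A : E3 → ℝ}, (dS a s x = Real.exp (ρ * s) *
        (ρ * A (Real.exp s • x) + fderiv ℝ A (Real.exp s • x) (Real.exp s • x)) ∧
        ∀ i, dX i (a s) x = Real.exp (ρ * s) * (Real.exp s * dX i A (Real.exp s • x))) →
        B.mat a s x = Real.exp (ρ * s) * mt A (Real.exp s • x) := by
      intro a A h
      simp only [BgD.mat, h.1, h.2, (hsc s x hbx).1, mt, mul_add, Finset.mul_sum]
      congr 1
      refine Finset.sum_congr rfl fun i _ => ?_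
      linear_combination (Real.exp (ρ * s) * Real.exp s * U i (Real.exp s • x) *
        dX i A (Real.exp s • x)) * e0 s + (Real.exp (ρ * s) * U i (Real.exp s • x) *
        dX i A (Real.exp s • x)) * e1 s
    have hd : ∀ t : ℝ, Real.exp (-B.r * s) * (Real.exp (ρ * s) * (Real.exp s * t)) = t := by
      intro t
      linear_combination (Real.exp s * t) * e0 s + t * e1 s
    have hne := (Real.exp_pos (ρ * s)).ne'
    refine ⟨fun i => ?_, ?_, fun j => ?_, fun i j => ?_, fun i => ?_⟩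
    · simp only [BgD.fld, sc, F, (hsc s x hbx).1, ← mul_assoc, e0]
    · simp only [BgD.fld, sc, F, (hsc s x hbx).2, ← mul_assoc, e0]
    · simp only [BgD.fld, sc, F, hmat (hu j), (hsc s x hbx).2]
      rw [neg_div, neg_div, mul_div_mul_left _ _ hne]
    · simp only [BgD.fld, sc, F, hmat hc, (hsc s x hbx).2, (hu j).2, hd,
        mul_div_mul_left _ _ hne]
    · simp only [BgD.fld, sc, F, hc.2, hd]
  set K := max |K1 0| |K2 0| with hK
  have hK0 : 0 ≤ K := (abs_nonneg _).trans (le_max_left _ _)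
  have hsz : ∀ {a : E3 → ℝ} {s : ℝ}, SymBd K1 0 (B.sig s) (fun x => B.Lam s x ^ (1 - B.r)) a →
      ∀ x, |Real.exp (-B.r * s) * a x| ≤ K * Real.exp (-s) := by
    intro a s h x
    have h1 := h [] le_rfl x
    simp only [List.length_nil, pow_zero, one_mul, dXw_nil] at h1
    have h2 := Lam_rpow_le B s x (b := 1 - B.r) (by linarith [hB.r_gt])
    have h3 : K1 0 * B.Lam s x ^ (1 - B.r) ≤ K * Real.exp (-((1 - B.r) * s)) :=
      mul_le_mul ((le_abs_self _).trans (le_max_left _ _)) h2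
        (Real.rpow_pos_of_pos (Lam_pos B s x) _).le hK0
    rw [abs_mul, abs_of_pos (Real.exp_pos _)]
    refine (mul_le_mul_of_nonneg_left (h1.trans h3) (Real.exp_pos _).le).trans (le_of_eq ?_)
    rw [mul_left_comm, ← Real.exp_add]; congr 2; ring
  have hsb : ∀ {a : E3 → ℝ} {s : ℝ}, SymBd K2 0 (B.sig s) (B.mu s) a → ∀ x, |a x| ≤ K := by
    intro a s h x
    have h1 := h [] le_rfl x
    simp only [List.length_nil, pow_zero, one_mul, dXw_nil] at h1
    have h3 : K2 0 * B.mu s x ≤ K * 1 :=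
      mul_le_mul ((le_abs_self _).trans (le_max_right _ _)) (mu_le_one B hB s x)
        (mu_pos B s x).le hK0
    linarith
  have hT : Tame B.fld K s1 :=
    ⟨hB.fldC.u, hB.fldC.c, fun s hs i => hsz ((hK1 s (hs1.trans hs)).1 i),
      fun s hs => hsz (hK1 s (hs1.trans hs)).2.1, fun s hs j => hsb ((hK2 s hs).1.b0 j),
      fun s hs i j => hsb ((hK2 s hs).1.b1 i j), fun s hs i => hsb ((hK2 s hs).1.b2 i)⟩
  have hy : ∀ y : E3, ∃ s x, s1 ≤ s ∧ Real.exp s • x = y ∧ Agree (B.fld s) (sc F s) x x := by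
    intro y
    obtain ⟨s, hs, h⟩ := exists_time ‖y‖ (1 / 8) s1 (by norm_num)
    exact ⟨s, Real.exp (-s) • y, hs, exp_smul_exp_neg s y,
      hag s _ (by rw [norm_exp_smul]; exact h s le_rfl)⟩
  have hdiv : ∀ (t s s' : ℝ), |Real.exp (-s) * t| ≤ K * Real.exp (-s) →
      |Real.exp (-s') * t| ≤ K * Real.exp (-s') := by
    intro t s s' h
    rw [abs_mul, abs_of_pos (Real.exp_pos _), mul_comm] at h ⊢
    exact mul_le_mul_of_nonneg_right (le_of_mul_le_mul_right h (Real.exp_pos _))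
      (Real.exp_pos _).le
  have hsm : ∀ {A : E3 → ℝ}, ContDiff ℝ ∞ A →
      SmC fun (s : ℝ) x => Real.exp (-s) * A (Real.exp s • x) := fun h =>
    (SmC.of_time (by fun_prop)).mul ((sm_of_contDiff h).smC.scale Real.continuous_exp)
  refine ⟨F, K, s1, hK0, hs1, hag, hT, fun s0 => ⟨fun i => hsm (hU i), hsm hC, fun s _ i x => ?_,
    fun s _ x => ?_, fun s _ j x => ?_, fun s _ i j x => ?_, fun s _ i x => ?_⟩⟩
  all_goals obtain ⟨t, z, ht, hz, hA⟩ := hy (Real.exp s • x)
  · have := hT.bu t ht i z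
    rw [hA.u] at this
    simp only [sc, hz] at this ⊢
    exact hdiv _ _ _ this
  · have := hT.bc t ht z
    rw [hA.c] at this
    simp only [sc, hz] at this ⊢
    exact hdiv _ _ _ this
  · have := hT.b0 t ht j z
    rw [hA.b0] at this
    simpa only [sc, hz] using this
  · have := hT.b1 t ht i j z
    rw [hA.b1] at this
    simpa only [sc, hz] using this
  · have := hT.b2 t ht i z
    rw [hA.b2] at this
    simpa only [sc, hz] using this

end Pool.Agent.MP_187b32_an.Lin
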